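import Pool.Agent.Helper73.OE.Geo

/-!
# Project OE (MP_fc0446_an): goals for sections 1-3 (runs, tripods, the update, exactness)

Text: Pool/Agent/Helper73/OE/paper.md. Definitions: Pool/Agent/Helper73/OE/Defs.lean, geometry:
Pool/Agent/Helper73/OE/Geo.lean. `Sd v p` is the side of `v` of the edge ` (v, p)`. All goals are
statements `A_...`; proofs in words are in the docstrings. For a run from `v` with
the in-direction `p` and new label `y ≠ f v p` write `x = f v p` (old label), `s = (f v).symm y`
(out-direction), `v' = nb v s`, `p' = bar s`, `y' = tau x`.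

THE BASIC FACT, used everywhere: `s ≠ p` (as `f v s = y ≠ x`), so by `branch_subset`
`Sd v' p' ⊆ Sd v p`, `v ∉ Sd v' p'`, `v' ∈ Sd v p`; and if ` (v,s)` is in `O` and matched, then
`f v' p' = tau y ≠ tau x = y'`: the hypotheses hold again for the rest of the run (from `v'` with
in-direction `p'` and new label `y'`).
-/

namespace Pool.Agent.Helper75.OE

open Pool.Agent.Helper73.OE Pool.Agent.Helper73.OE.Sys Finset
open scoped ENNReal

/-- PACKET LLOC (the length of a run depends only on the side). Proof: induction on `r`, using the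
basic fact; the edge ` (v,s)` has both ends in `Sd v p`, so `O'` and `O` agree there and it is
matched if it is in `O`; `g v = f v` as `v ∈ Sd v p`. -/
def A_LLOC : Prop :=
  ∀ (H S L : Type) [Group H] (X : Sys H S L) (O O' : Edges H S) (v : H) (p : S) (y : L)
    (f g : Cfg H S L), y ≠ f v p → X.MA O (X.Sd v p) f → (∀ z ∈ X.Sd v p, g z = f z) →
    (∀ z r, z ∈ X.Sd v p → X.nb z r ∈ X.Sd v p → (O' z r ↔ O z r)) →
    ∀ r, X.Long O' g r v p y ↔ X.Long O f r v p y

/-- PACKET PLOC (the permutations made by the flip of a run happen on the side and depend only on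
the side). Proof: induction on `n` (for all `v p y`), using the basic fact. -/
def A_PLOC : Prop :=
  ∀ (H S L : Type) [Group H] (X : Sys H S L) (O O' : Edges H S) (v : H) (p : S) (y : L)
    (f g : Cfg H S L), y ≠ f v p → X.MA O (X.Sd v p) f → (∀ z ∈ X.Sd v p, g z = f z) →
    (∀ z r, z ∈ X.Sd v p → X.nb z r ∈ X.Sd v p → (O' z r ↔ O z r)) →
    ∀ z n, (z ∉ X.Sd v p → X.flipP O f z n v p y = 1) ∧
      X.flipP O' g z n v p y = X.flipP O f z n v p y

open Classical in
/-- PACKET FREC (recursion for `flip`). May assume `A_PLOC`. Proof: at `v` the fuel is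
`dist v v = 0`. Outside `Sd v p`: `A_PLOC`. Let `z ≠ v`, so `dist v z = n + 1` for some `n` and
`flipP O f z (n+1) v p y` is `flipP O f z n v' p' y'` if `O v s`, otherwise `1`. If `O v s` and
`z ∈ Sd v' p'` then `dist v' z = n` (`mem_Sd_bar`), which is the fuel of the rest; if
`z ∉ Sd v' p'` both `flipP O f z n v' p' y'` and `flipP O f z (dist v' z) v' p' y'` are `1` by
`A_PLOC`. -/
def A_FREC : Prop :=
  ∀ (H S L : Type) [Group H] (X : Sys H S L) (O : Edges H S) (v : H) (p : S) (y : L)
    (f : Cfg H S L), y ≠ f v p → X.MA O (X.Sd v p) f →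
    X.flip O v p y f v = (f v).trans (Equiv.swap (f v p) y) ∧
    (∀ z, z ∉ X.Sd v p → X.flip O v p y f z = f z) ∧
    (O v ((f v).symm y) → ∀ z, z ≠ v → X.flip O v p y f z =
      X.flip O (X.nb v ((f v).symm y)) (X.bar ((f v).symm y)) (X.tau (f v p)) f z) ∧
    (¬ O v ((f v).symm y) → ∀ z, z ≠ v → X.flip O v p y f z = f z)

/-- PACKET FLM (1.1: the flip keeps the edges of the side matched). May assume `A_PLOC`, `A_FREC`.
Let `g = flip O v p y f`. By `Sym O` and the symmetry of `Mt` it is enough to treat the edges
` (z,r)` of `O` with both ends in `Sd v p` and `dist v (nb z r) = dist v z + 1`. Induction on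
`dist v z`, for all `v p y`. If `z = v`: `r ≠ p` as `nb v p ∉ Sd v p`. If `r = s` then
`g v s = x`, and at `v' ≠ v` by `A_FREC` (first for ` (v,p)`, then for ` (v',p')`)
`g v' = (f v').trans (swap (f v' p') (tau x))`, so `g v' p' = tau x`: matched. If `r ≠ s`: `f v r` is
neither `x` nor `y`, so `g v r = f v r`, and `nb v r` is neither `v` nor in `Sd v' p'`
(`branch_unique`), so `g = f` there. If `z ≠ v` (then `nb z r ≠ v`, its distance from `v` is
positive): if `O v s` fails `g = f` at both ends. If `O v s`: `g` is the flip of the rest at both ends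
(`A_FREC`); if both ends are in `Sd v' p'` use the induction hypothesis (`dist v' z = dist v z - 1`
by `mem_Sd_bar`, the same for `nb z r`); if none is, `g = f` there; exactly one is impossible:
by `Sd_edge` the edge would be ` (v',p')` or its reverse and contain `v`. -/
def A_FLM : Prop :=
  ∀ (H S L : Type) [Group H] (X : Sys H S L) (O : Edges H S) (v : H) (p : S) (y : L)
    (f : Cfg H S L), X.Sym O → y ≠ f v p → X.MA O (X.Sd v p) f →
    X.MA O (X.Sd v p) (X.flip O v p y f)

/-- PACKET FLI (1.2: the flip back). May assume `A_LLOC`, `A_PLOC`, `A_FREC`, `A_FLM`. Let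
`g = flip O v p y f`. `g v p = y` and ` (g v).symm x = s`. First statement: induction on `r` for all
`v p y f`: if `O v s`, the rest of the run of `g` starts at `v'` with in-direction `p'` and new label
`tau (g v p) = tau y = f v' p'`, and on `Sd v' p'` `g` is `flip O v' p' y' f` (`A_FREC`), so use the
induction hypothesis and `A_LLOC` (`g` and that flip agree on `Sd v' p'`). Second
statement, at `z`: induction on `dist v z` for all `v p y f`. `z = v`: swapping twice. `z ≠ v`: if
`O v s` fails nothing happens. If `O v s`: by `A_FREC` for `g` (its hypothesis is `A_FLM`)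
the second flip at `z` is `flip O v' p' (tau y) g z`; for `z ∈ Sd v' p'` this is
`flip O v' p' (tau y) (flip O v' p' y' f) z` (`A_PLOC`) `= f z` by the induction hypothesis; for
`z ∉ Sd v' p'` nothing changes at `z` in both flips. -/
def A_FLI : Prop :=
  ∀ (H S L : Type) [Group H] (X : Sys H S L) (O : Edges H S) (v : H) (p : S) (y : L)
    (f : Cfg H S L), X.Sym O → y ≠ f v p → X.MA O (X.Sd v p) f →
    (∀ r, X.Long O (X.flip O v p y f) r v p (f v p) ↔ X.Long O f r v p y) ∧
      X.flip O v p (f v p) (X.flip O v p y f) = f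

open Classical in
/-- PACKET TREC (recursion for the tripod move). May assume `A_PLOC`. Step: by definition
(`if_neg`, `if_pos`). `m = 0`: with `t = (f v).symm y`, `r = (f v).symm k` (`t, r, p` are
different) `armP O f z v t k` is the flip of the run from `nb v t` with in-direction `bar t` and new
label `tau k ≠ f (nb v t) (bar t) = tau y` if `O v t`; by `A_PLOC` it is `1` for
`z ∉ Sd (nb v t) (bar t)`; similarly `armP O f z v r x`. The branches `Sd (nb v t) (bar t)` and
`Sd (nb v r) (bar r)` are disjoint (`branch_unique`). -/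
def A_TREC : Prop :=
  ∀ (H S L : Type) [Group H] (X : Sys H S L) (O : Edges H S) (v : H) (p : S) (y k : L)
    (f : Cfg H S L), y ≠ f v p → X.MA O (X.Sd v p) f →
    (∀ m, X.TR O (m + 1) v p y k f v = (f v).trans (Equiv.swap (f v p) y) ∧
      ∀ z, z ≠ v → X.TR O (m + 1) v p y k f z =
        X.TR O m (X.nb v ((f v).symm y)) (X.bar ((f v).symm y)) (X.tau (f v p)) k f z) ∧
    (k ≠ f v p → k ≠ y →
      X.TR O 0 v p y k f v =
        (f v).trans ((Equiv.swap (f v p) y).trans (Equiv.swap (f v p) k)) ∧
      (∀ z ∈ X.Sd (X.nb v ((f v).symm y)) (X.bar ((f v).symm y)), X.TR O 0 v p y k f z =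
        if O v ((f v).symm y) then
          X.flip O (X.nb v ((f v).symm y)) (X.bar ((f v).symm y)) (X.tau k) f z else f z) ∧
      (∀ z ∈ X.Sd (X.nb v ((f v).symm k)) (X.bar ((f v).symm k)), X.TR O 0 v p y k f z =
        if O v ((f v).symm k) then
          X.flip O (X.nb v ((f v).symm k)) (X.bar ((f v).symm k)) (X.tau (f v p)) f z
        else f z) ∧
      (∀ z, z ≠ v → z ∉ X.Sd (X.nb v ((f v).symm y)) (X.bar ((f v).symm y)) →
        z ∉ X.Sd (X.nb v ((f v).symm k)) (X.bar ((f v).symm k)) → X.TR O 0 v p y k f z = f z))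

/-- PACKET TLOC (the tripod move happens on the side and depends only on the side). May assume
`A_LLOC`, `A_PLOC`, `A_TREC`. Proof: induction on `m` with the basic fact (for the step use that
` (v,s)` is open when the move is available); availability: `A_LLOC` for the arms. -/
def A_TLOC : Prop :=
  ∀ (H S L : Type) [Group H] (X : Sys H S L) (O O' : Edges H S) (M m : ℕ) (v : H) (p : S)
    (y k : L) (f g : Cfg H S L), y ≠ f v p → X.MA O (X.Sd v p) f →
    (∀ z ∈ X.Sd v p, g z = f z) →
    (∀ z r, z ∈ X.Sd v p → X.nb z r ∈ X.Sd v p → (O' z r ↔ O z r)) →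
    (X.Av O' M g m v p y k ↔ X.Av O M f m v p y k) ∧
    (X.Av O M f m v p y k →
      (∀ z, z ∉ X.Sd v p → X.TR O m v p y k f z = f z) ∧
      (∀ z ∈ X.Sd v p, X.TR O' m v p y k g z = X.TR O m v p y k f z))

/-- PACKET TRM (2.1). May assume `A_PLOC`, `A_FREC`, `A_FLM`, `A_TREC`, `A_TLOC`. Let `g` be the
result. Proof: induction on `m`. As in `A_FLM` treat edges ` (z,r)` of `O` inside `Sd v p` with
`dist v (nb z r) = dist v z + 1`. Step `m + 1` (then `O v s`, and the rest of the move is available
from `v'` with in-direction `p'` and new label `y'`): `g v = (f v).trans (swap x y)`, for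
`z ≠ v` `g z` is the result of the rest of the move; so inside `Sd v' p'` the edges are matched
(induction hypothesis), ` (v,s)` is matched because `g v s = x` and `g v' p' = y' = tau x`
(induction hypothesis), all other edges are unchanged. `m = 0`: with `t = (f v).symm y`,
`r = (f v).symm k`: the labels at `v` of `p, t, r` become `y, k, x`, the other labels at `v` stay.
On the branch beyond `t` `g` is the flip of the arm (or nothing), which is matched by `A_FLM` and
has the label `tau k` at ` (nb v t, bar t)` (if ` (v,t)` is open); the same beyond `r` with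
`tau x`; the other branches are unchanged. -/
def A_TRM : Prop :=
  ∀ (H S L : Type) [Group H] (X : Sys H S L) (O : Edges H S) (M m : ℕ) (v : H) (p : S)
    (y k : L) (f : Cfg H S L), X.Sym O → y ≠ f v p → X.MA O (X.Sd v p) f →
    X.Av O M f m v p y k →
    X.TR O m v p y k f v p = y ∧ X.MA O (X.Sd v p) (X.TR O m v p y k f)

/-- PACKET TRI (2.2). May assume `A_LLOC`, `A_PLOC`, `A_FREC`, `A_FLM`, `A_FLI`, `A_TREC`,
`A_TLOC`, `A_TRM`. Let `g` be the result. Proof: induction on `m`. Step: `g v = (f v).trans (swap x
y)`, so ` (g v).symm x = s`, and on `Sd v' p'` `g` is the result of the rest of the move; the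
induction hypothesis and `A_TLOC` apply there, with new label `tau (g v p) = tau y = f v' p'`.
`m = 0`: with `t, r` as in `A_TRM`: ` (g v).symm x = r`, ` (g v).symm k = t`. The reversed move has
out-direction `r` (new label `k` there) and side direction `t` (new label `g v p = y`). Its arm
beyond `r` is the run of `g` from `nb v r`, in-direction `bar r`, new label `tau k`, which is the old
label `f (nb v r) (bar r)`: by `A_FLI` (and `A_LLOC`, `A_PLOC`, as on the branch `g` is the flip of
`f`) it has the same length as the arm of the first move beyond `r` and its flip restores `f`; the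
same for `t`. At `v` the second permutation ` (swap y x).trans (swap y k)` is the inverse of
` (swap x y).trans (swap x k)`. -/
def A_TRI : Prop :=
  ∀ (H S L : Type) [Group H] (X : Sys H S L) (O : Edges H S) (M m : ℕ) (v : H) (p : S)
    (y k : L) (f : Cfg H S L), X.Sym O → y ≠ f v p → X.MA O (X.Sd v p) f →
    X.Av O M f m v p y k →
    X.Av O M (X.TR O m v p y k f) m v p (f v p) k ∧
      X.TR O m v p (f v p) k (X.TR O m v p y k f) = f

/-- PACKET BLOC (2.3: ball locality; no matching needed). The main run up to the centre at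
position `m` and the arms have distance `≤ m + M` from `v`. Proof: first for runs: if `f, g` and
`O, O'` agree at all `z` with `dist v z < M`, then `Long O' g r v p y ↔ Long O f r v p y` for
`r ≤ M`, and if `¬ Long O f M v p y` then `flipP O' g z n v p y = flipP O f z n v p y` for all `n`,
and this is `1` if `M ≤ dist v z` (induction on `M` for all `v p y n`; `dist v z ≤ dist v' z + 1`).
Then induction on `m` for the main run; the first vertex of an arm at a centre `u` has
distance `1` from `u`. -/
def A_BLOC : Prop :=
  ∀ (H S L : Type) [Group H] (X : Sys H S L) (O O' : Edges H S) (M m : ℕ) (v : H) (p : S)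
    (y k : L) (f g : Cfg H S L), (∀ z, X.dist v z ≤ m + M → g z = f z) →
    (∀ z r, X.dist v z ≤ m + M → (O' z r ↔ O z r)) →
    (X.Av O' M g m v p y k ↔ X.Av O M f m v p y k) ∧
    (X.Av O M f m v p y k →
      (∀ z, X.dist v z ≤ m + M → X.TR O' m v p y k g z = X.TR O m v p y k f z) ∧
      (∀ z, m + M < X.dist v z → X.TR O m v p y k f z = f z))

/-- PACKET PICK (the choice of an index). Proof: `A.equivFin` is a bijection of `A` with
`Fin A.card`. -/
def A_PICK : Prop :=
  ∀ (ι : Type) (cap : ℕ) (A : Finset ι),
    (∀ u j, pick cap A u = some j → j ∈ A ∧ A.card ≤ cap ∧ u < A.card) ∧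
    (A.card ≤ cap → ∀ j ∈ A, ∃! u, pick cap A u = some j)

/-- PACKET UPM (the update matches the edge and keeps the others matched, in any volume; this is
`UpdMatched_stmt` of Pool/Agent/Helper73/OE/Iface.lean). May assume `A_FREC`, `A_FLM`, `A_TLOC`,
`A_TRM`, `A_PICK`. Let `w = nb v s`. Side 1 is `Sd v s`, side 2 is `Sd w (bar s)`; they are
complementary (`notMem_Sd`), and an edge of `O` joining them is ` (v,s)` or its reverse (`Sd_edge`),
which is not in `O`. So `MA O univ f` is `MA O` on both sides. Cases of `Upd`: no change if already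
matched; a tripod on side 1 (`A_TRM`, `A_TLOC`): the label at ` (v,s)` becomes `tau (f w (bar s))`,
side 2 is unchanged; the flip on side 2 (`A_FREC`, `A_FLM`): the label at ` (w, bar s)` becomes
`tau (f v s)`, side 1 is unchanged. -/
def A_UPM : Prop :=
  ∀ (H S L : Type) [Group H] [Fintype L] (X : Sys H S L) (P : Par) (O : Edges H S)
    (v : H) (s : S) (u : ℕ) (f : Cfg H S L), X.Sym O → ¬ O v s → X.MA O Set.univ f →
    X.MA (X.addE O (v, s)) Set.univ (X.Upd P O v s u f)

/-- PACKET UPI (the update changes nothing outside the volume). Proof (no matching needed): if all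
edges of `O` are inside `Λ` and `v ∈ Λ`, then for `z ∉ Λ`: `flipP O f z n v p y = 1` (induction on
`n`), `armP O f z v t y = 1`, and `triP O f z m v p y k = 1` if `Av O M f m v p y k` (induction on
`m`). In a cheap update the move is available: `A_PICK` (may be assumed). -/
def A_UPI : Prop :=
  ∀ (H S L : Type) [Group H] [Fintype L] (X : Sys H S L) (P : Par) (O : Edges H S)
    (Λ : Set H) (v : H) (s : S) (u : ℕ) (f : Cfg H S L),
    (∀ z r, O z r → z ∈ Λ ∧ X.nb z r ∈ Λ) → v ∈ Λ → X.nb v s ∈ Λ →
    ∀ z, z ∉ Λ → X.Upd P O v s u f z = f z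

/-- PACKET CNT (3.1, the count of the preimages, in any volume). May assume `A_PLOC`, `A_FREC`,
`A_FLM`, `A_FLI`, `A_TLOC`, `A_TRM`, `A_TRI`, `A_PICK`. Let `w = nb v s`, `a = f' v s`, so
`f' w (bar s) = tau a`. For a label `a0 ≠ a` let `A(a0) = AS P O f' v s a0` (moves of `f'` on side 1
from the label `a` to `a0`) and
`c(a0) = {i ∈ A(a0) : (A(a0)).card ≤ cap and (AS P O (TRi i f') v s a).card ≤ cap}`.
A pair ` (f,u)` with `MA O univ f` and `Upd f u = f'` is of exactly one of the kinds:
(i) `f = f'` (the edge was matched): every `u < cap` is fine: `cap` pairs.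
(ii) cheap, with `a0 = f v s ≠ tau (f w (bar s))`: the move changes `a0` to `tau (f w (bar s))` at
` (v,s)` and nothing on side 2, so `f w (bar s) = tau a`, and `f = TRi i f'` (type `a -> a0`) with
`i ∈ A(a0)` by `A_TRI`. Conversely for `i ∈ A(a0)` put `f = TRi i f'`: `MA O univ f`,
`i ∈ AS P O f v s a`, `TRi i f = f'`; the update of `f` with the seed `u` is this cheap move iff
`pick cap (AS P O f v s a) u = some i` and ` (AS P O f' v s a0).card ≤ cap`; there is such a `u`
(then exactly one, and `u < cap`) iff ` (AS P O f v s a).card ≤ cap`. So the pairs of kind (ii) with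
given `a0` are in bijection with `c(a0)` (`i ↦ (TRi i f', u)`; injective: `i` is recovered from
` (f,u)` by `pick`).
(iii) fallback, `f v s = a`, `b = f w (bar s) ≠ tau a`: put `a0 = tau b ≠ a`. `f` is the flip of the
run of `f'` from `w` with in-direction `bar s` and new label `b` (`A_FLI`), one `f` for each `a0`,
equal to `f'` on side 1. The update of `f` with the seed `u < cap` is a fallback iff there is no `i`
with `pick cap (AS P O f v s a0) u = some i` and ` (AS P O (TRi i f) v s a).card ≤ cap`; by `A_TLOC`
these sets are `A(a0)` and `AS P O (TRi i f') v s a` (side 1), so by `A_PICK` the number of the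
other seeds is `c(a0).card` and of these seeds `cap - c(a0).card`.
Total: `cap + ∑_{a0 ≠ a} (c(a0) + cap - c(a0)) = card L * cap`. -/
def A_CNT : Prop :=
  ∀ (H S L : Type) [Group H] [Fintype L] (X : Sys H S L) (P : Par) (O : Edges H S)
    (v : H) (s : S) (f' : Cfg H S L), X.Sym O → ¬ O v s →
    X.MA (X.addE O (v, s)) Set.univ f' →
    {x : Cfg H S L × Fin P.cap | X.MA O Set.univ x.1 ∧
      X.Upd P O v s (x.2 : ℕ) x.1 = f'}.ncard = Fintype.card L * P.cap

/-- PACKET EXA (3.1 for sums; this is `Exact_stmt` of Pool/Agent/Helper73/OE/Iface.lean). May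
assume `A_CNT`, `A_UPM`, `A_UPI`. Proof: for a configuration `glue Λ f`, `MA O Λ` is `MA O univ`
because `O` is inside `Λ`; the same for `addE O (v,s)`. By `A_UPI`, `Upd P O v s u (glue Λ f)`
equals `e0` outside `Λ`, so it is `glue Λ f'` for exactly one `f'`, and it is matched for
`addE O (v,s)` (`A_UPM`). Exchange the sums: the left side is the sum over `f'` of `F (glue Λ f')`
times the number of pairs ` (f,u)` with `Upd ... = glue Λ f'`; all `x.1` in the set of `A_CNT` for
`glue Λ f'` agree with `glue Λ f'` outside `Λ` (`A_UPI`), so this number is `card L * cap` (the set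
of `A_CNT` is finite, also if `cap = 0`). -/
def A_EXA : Prop :=
  ∀ (H S L : Type) [Group H] [Fintype S] [Fintype L] (X : Sys H S L) (P : Par)
    (O : Edges H S) (Λ : Finset H) (v : H) (s : S) (F : Cfg H S L → ℝ≥0∞), X.Sym O →
    (∀ z r, O z r → z ∈ Λ ∧ X.nb z r ∈ Λ) → ¬ O v s → v ∈ Λ → X.nb v s ∈ Λ →
    ∑ u ∈ Finset.range P.cap, X.starSum Λ O (fun f => F (X.Upd P O v s u f))
      = (Fintype.card L : ℝ≥0∞) * P.cap * X.starSum Λ (X.addE O (v, s)) F

open Classical in
/-- PACKET TRB (the bijection of 5.4, for sums). `Λ` contains the ball of radius `2 J + M + 1`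
about `v`; `O` is any symmetric set of edges. May assume `A_TLOC`, `A_TRM`, `A_TRI`, `A_BLOC`.
Proof: let `O'` be the set of the edges of `O` inside `Λ`, `q = glue Λ f`; `MA O Λ q` is
`MA O' univ q`. Because `Λ` contains the ball, `Av O M q m v s y k` and (if available)
`TR O m v s y k q` do not change if `O` is replaced by `O'` (`A_BLOC`; `m = 2 i.1 + 1`,
`m + M ≤ 2 J - 1 + M`; an edge of `O` with one end at distance `≤ 2 J + M` from `v` is inside `Λ`).
By `A_TRM`, `A_TRI`, `A_TLOC` (note `Sd v s` and its complement: nothing changes on the other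
side, and the edge ` (v,s)` is not in `O`) the map `q ↦ TRi P O i v s y q` is a bijection of the
configurations on `Λ`, matched on `O` inside `Λ`, with `q v s = x` and `i ∈ AS P O q v s y`, onto
those with `q v s = y` and `i ∈ AS P O q v s x`, with inverse `q ↦ TRi P O i v s x q`; nothing
changes outside the ball, so outside `Λ` (`A_BLOC`). -/
def A_TRB : Prop :=
  ∀ (H S L : Type) [Group H] [Fintype S] [Fintype L] (X : Sys H S L) (P : Par)
    (O : Edges H S) (Λ : Finset H) (v : H) (s : S) (x y : L) (i : Fin P.J × L)
    (F : Cfg H S L → ℝ≥0∞), X.Sym O → ¬ O v s → x ≠ y →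
    (∀ z, X.dist v z ≤ 2 * P.J + P.M + 1 → z ∈ Λ) →
    X.starSum Λ O (fun q =>
        if q v s = x ∧ i ∈ X.AS P O q v s y then F (X.TRi P O i v s y q) else 0)
      = X.starSum Λ O (fun q =>
        if q v s = y ∧ i ∈ X.AS P O q v s x then F q else 0)

end Pool.Agent.Helper75.OE
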