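import Pool.Agent.Helper75.OE.GoalsB2

/-!
# Project OE (MP_fc0446_an): Lemma 7.2, second part
-/

namespace Pool.Agent.Helper75.OE

open Pool.Agent.Helper73.OE Pool.Agent.Helper73.OE.Sys Finset

theorem ex_left {H S L : Type} [Group H] (X : Sys H S L) (P : Par) (O : Edges H S)
    (f : Cfg H S L) (e : H × S) : e.1 ∈ Ex X P O f e :=
  Or.inl (by rw [X.dist_self]; exact Nat.zero_le _)

theorem m72b : B_PM72b := by
  intro hCVX hSTR hSTA hNOCH hDICH hORDF hLOCU hRINV H S L _ _ _ X P ε ε' q η u Λ o hma hl hne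
  classical
  obtain ⟨l, hl⟩ := hl
  obtain ⟨hord, -, ⟨hfr, hlS⟩, hSO, hSS, hSin⟩ :=
    hORDF H S L X ε ε' η (Λ : Set H) (Λ : Set H) l hl le_rfl
  have hdyn : X.dyn P ε ε' (Λ : Set H) q η u =
      X.dynL P (sd P u) l (X.inside (Λ : Set H) (X.Op ε η)) q := by
    unfold Sys.dyn; rw [hord]
  rw [hdyn] at hne
  have hmem : ∀ e, e ∈ l ↔ (X.Si ε ε' η e.1 e.2 ∧ e.1 ∈ (Λ : Set H) ∧
      X.nb e.1 e.2 ∈ (Λ : Set H) ∧ X.Pos η e) := hl.2
  have hT : TwoH X (X.Op ε η) (X.Si ε ε' η) q Λ l l (X.inside (Λ : Set H) (X.Op ε η))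
      (X.inside (Λ : Set H) (X.Op ε η)) :=
    { symO := hSO
      symS := hSS
      ma := hma
      sub1 := fun z r h => ⟨h.1, Finset.mem_coe.1 h.2.1, Finset.mem_coe.1 h.2.2⟩
      sub2 := fun z r h => ⟨h.1, Finset.mem_coe.1 h.2.1, Finset.mem_coe.1 h.2.2⟩
      sym1 := hSin
      sym2 := hSin
      lin := fun e he => ⟨Finset.mem_coe.1 ((hmem e).1 he).2.1,
        Finset.mem_coe.1 ((hmem e).1 he).2.2.1⟩
      lsub := fun e he => he
      lS := hlS
      fr1 := hfr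
      fr2 := hfr }
  have hoU : o ∈ UU X P (sd P u) l (X.inside (Λ : Set H) (X.Op ε η)) q := by
    by_contra h
    apply hne
    apply hNOCH
    intro e' O' f' hr hx
    exact h ⟨e', O', f', hr, hx⟩
  obtain ⟨C, Sp, hC, hCT⟩ := hSTR H S L X P (sd P u) _ _ q Λ l l _ _ o _ hT
    (Set.union_self _).symm hoU
  refine ⟨C, Sp, _, hCT, ?_⟩
  intro hk hΛ
  rw [Finset.card_eq_one] at hk
  obtain ⟨e, he⟩ := hk
  have heA : e ∈ l.toFinset.filter (fun e => e.1 ∈ C) := by rw [he]; exact mem_singleton_self e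
  rw [mem_filter, List.mem_toFinset] at heA
  obtain ⟨hel, heC⟩ := heA
  have huniq : ∀ e' ∈ l, e'.1 ∈ C → e' = e := by
    intro e' he' hC'
    have : e' ∈ l.toFinset.filter (fun e => e.1 ∈ C) := by
      rw [mem_filter, List.mem_toFinset]; exact ⟨he', hC'⟩
    rw [he] at this
    exact mem_singleton.1 this
  have hmaI : X.MA (X.inside (Λ : Set H) (X.Op ε η)) Set.univ q :=
    fun v s hv hs h => hma v s hv hs h.1
  have hFr : Fr X (X.inside (Λ : Set H) (X.Op ε η)) l :=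
    ⟨fun e he h => (hlS e he).2 h.1, hfr⟩
  obtain ⟨hinv, -, -⟩ := hRINV H S L X P (sd P u) l _ q hSin hmaI hFr
  have hdich : ∀ e' O' f', Rec X P (sd P u) l (X.inside (Λ : Set H) (X.Op ε η)) q e' O' f' →
      Ex X P O' f' e' ⊆ (C : Set H) ∨ Disjoint (Ex X P O' f' e') (C : Set H) := by
    intro e' O' f' hr
    rw [hC]
    apply hDICH
    intro z hz
    exact ⟨e', O', f', hr, hz⟩
  have hdis : ∀ e' O' f', Rec X P (sd P u) l (X.inside (Λ : Set H) (X.Op ε η)) q e' O' f' →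
      e' ≠ e → Disjoint (Ex X P O' f' e') (C : Set H) := by
    intro e' O' f' hr hee
    rcases hdich e' O' f' hr with h | h
    · exact absurd (huniq e' (hinv e' O' f' hr).1 (Finset.mem_coe.1 (h (ex_left X P O' f' e')))) hee
    · exact h
  have hoC : o ∈ (C : Set H) := by
    rw [hC]; exact ((hCVX H S L X).2.2.2.1 _ o hoU).1
  have hnd : l.Nodup := hfr.imp (fun h => h.1)
  obtain ⟨O', f', hr, hf, hO, hval⟩ := hSTA H S L X P (sd P u) l _ q (C : Set H) e o hnd hoC hne hdis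
  have hK : Ex X P O' f' e ⊆ (C : Set H) := by
    rcases hdich e O' f' hr with h | h
    · exact h
    · exact absurd (Finset.mem_coe.2 heC) (Set.disjoint_left.1 h (ex_left X P O' f' e))
  obtain ⟨-, hL2, hL3⟩ := hLOCU H S L X P O' (X.Op ε η) f' q e (sd P u e)
    (fun z hz => (hf z (hK hz)).symm)
    (fun z hz r => by
      have h1 := hO z (hK hz) r
      have h2 := hΛ z (Finset.mem_coe.1 (hK hz))
      constructor
      · intro h
        exact h1.2 ⟨h, Finset.mem_coe.2 h2.1, Finset.mem_coe.2 (h2.2 r)⟩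
      · intro h
        exact (h1.1 h).1)
  have hoK : o ∈ Ex X P O' f' e := by
    by_contra h
    apply hne
    rw [← hval, hL3 o h, hf o hoC]
  have hfin := hL2 o hoK
  refine ⟨e.1, e.2, ((hmem e).1 hel).1, ((hmem e).1 hel).2.2.2, ?_⟩
  intro h
  apply hne
  rw [← hval, ← hfin]
  exact h

end Pool.Agent.Helper75.OE
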