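import Pool.Agent.Helper75.OE.GoalsA
import Pool.Agent.Helper93.OE.TRM

/-!
# Project OE (MP_fc0446_an): packet TRI, the tripod move is an involution
-/

namespace Pool.Agent.Helper75.OE

open Pool.Agent.Helper73.OE Pool.Agent.Helper73.OE.Sys
open Pool.Agent.Helper93.OE (tau_inj ma_mono)

variable {H S L : Type} [Group H] (X : Sys H S L)

/-- The way back of an arm. -/
theorem tri_arm (h0 : A_LLOC) (h1 : A_PLOC) (h2 : A_FREC) (h3 : A_FLM) (h4 : A_FLI)
    {O : Edges H S} (hS : X.Sym O) {M : ℕ} {v : H} {p c : S} {l : L} {f g : Cfg H S L}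
    (hf : X.MA O (X.Sd v p) f) (hcp : c ≠ p) (hl : l ≠ f v c) (ho : O v c)
    (hz : ∀ z ∈ X.Sd (X.nb v c) (X.bar c), g z =
      X.flip O (X.nb v c) (X.bar c) (X.tau l) f z) :
    (X.Long O g M (X.nb v c) (X.bar c) (X.tau (f v c)) ↔
      X.Long O f M (X.nb v c) (X.bar c) (X.tau l)) ∧
    ∀ z ∈ X.Sd (X.nb v c) (X.bar c),
      X.flip O (X.nb v c) (X.bar c) (X.tau (f v c)) g z = f z := by
  have hbr : X.MA O (X.Sd (X.nb v c) (X.bar c)) f := ma_mono X (X.branch_subset hcp) hf
  have hold : f (X.nb v c) (X.bar c) = X.tau (f v c) :=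
    hf v c (X.self_mem_Sd v p) (X.branch_subset hcp (X.self_mem_Sd _ _)) ho
  have hne : X.tau l ≠ f (X.nb v c) (X.bar c) := by
    rw [hold]
    intro h
    exact hl (tau_inj X h)
  have hI := h4 H S L X O (X.nb v c) (X.bar c) (X.tau l) f hS hne hbr
  have hM2 := h3 H S L X O (X.nb v c) (X.bar c) (X.tau l) f hS hne hbr
  have hlab : X.flip O (X.nb v c) (X.bar c) (X.tau l) f (X.nb v c) (X.bar c) = X.tau l := by
    rw [(h2 H S L X O _ _ _ f hne hbr).1]
    simp
  have hne2 : f (X.nb v c) (X.bar c) ≠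
      X.flip O (X.nb v c) (X.bar c) (X.tau l) f (X.nb v c) (X.bar c) := by
    rw [hlab]; exact hne.symm
  rw [← hold]
  refine ⟨?_, ?_⟩
  · rw [← hI.1 M]
    exact h0 H S L X O O _ _ _ _ g hne2 hM2 hz (fun _ _ _ _ => Iff.rfl) M
  · intro z hzz
    have hP := (h1 H S L X O O _ _ _ _ g hne2 hM2 hz (fun _ _ _ _ => Iff.rfl) z
      (X.dist (X.nb v c) z)).2
    have h5 := congrFun hI.2 z
    unfold Sys.flip at h5 ⊢
    rw [hP, hz z hzz]
    exact h5

theorem swap3 {x y k a : L} [DecidableEq L] (hxy : y ≠ x) (hkx : k ≠ x) (hky : k ≠ y) :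
    (Equiv.swap y k) ((Equiv.swap y x) ((Equiv.swap x k) ((Equiv.swap x y) a))) = a := by
  by_cases h1 : a = x
  · subst h1
    rw [Equiv.swap_apply_left, Equiv.swap_apply_of_ne_of_ne hxy hky.symm,
      Equiv.swap_apply_left, Equiv.swap_apply_of_ne_of_ne hxy.symm hkx.symm]
  by_cases h2 : a = y
  · subst h2
    rw [Equiv.swap_apply_right, Equiv.swap_apply_left, Equiv.swap_apply_of_ne_of_ne hky hkx,
      Equiv.swap_apply_right]
  by_cases h3 : a = k
  · subst h3
    rw [Equiv.swap_apply_of_ne_of_ne h1 h2, Equiv.swap_apply_right, Equiv.swap_apply_right,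
      Equiv.swap_apply_left]
  · rw [Equiv.swap_apply_of_ne_of_ne h1 h2, Equiv.swap_apply_of_ne_of_ne h1 h3,
      Equiv.swap_apply_of_ne_of_ne h2 h1, Equiv.swap_apply_of_ne_of_ne h2 h3]

open Classical in
theorem tri (h0 : A_LLOC) (h1 : A_PLOC) (h2 : A_FREC) (h3 : A_FLM) (h4 : A_FLI) (h5 : A_TREC)
    (h6 : A_TLOC) (h7 : A_TRM) : A_TRI := by
  intro H S L _ X O M m v p y k f hS
  induction m generalizing v p y with
  | zero =>
    intro hy hf hAv
    have hT := h7 H S L X O M 0 v p y k f hS hy hf hAv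
    obtain ⟨hk1, hk2, hA1, hA2⟩ := hAv
    obtain ⟨gv, gt, gr, gz⟩ := (h5 H S L X O v p y k f hy hf).2 hk1 hk2
    generalize hg : X.TR O 0 v p y k f = g at gv gt gr gz hT ⊢
    obtain ⟨gvp, hMg⟩ := hT
    generalize ht : (f v).symm y = t at hA1 gt gr gz
    generalize hr : (f v).symm k = r at hA2 gt gr gz
    have hft : f v t = y := by rw [← ht]; simp
    have hfr : f v r = k := by rw [← hr]; simp
    have htp : t ≠ p := by
      rintro rfl
      exact hy hft.symm
    have hrp : r ≠ p := by
      rintro rfl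
      exact hk1 hfr.symm
    have hrt : r ≠ t := by
      rintro rfl
      exact hk2 (hfr.symm.trans hft)
    have gvc : ∀ c, g v c = (Equiv.swap (f v p) k) ((Equiv.swap (f v p) y) (f v c)) := by
      intro c
      rw [gv]
      rfl
    have gvt : g v t = k := by
      rw [gvc, hft, Equiv.swap_apply_right, Equiv.swap_apply_left]
    have gvr : g v r = f v p := by
      rw [gvc, hfr, Equiv.swap_apply_of_ne_of_ne hk1 hk2, Equiv.swap_apply_right]
    have sr : (g v).symm (f v p) = r := by rw [← gvr]; simp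
    have st : (g v).symm k = t := by rw [← gvt]; simp
    have hkt : k ≠ f v t := by rw [hft]; exact hk2
    have hxr : f v p ≠ f v r := by rw [hfr]; exact hk1.symm
    have armt : O v t → _ := fun ho => tri_arm X h0 h1 h2 h3 h4 hS (M := M) (g := g) hf htp hkt ho
      (fun z hz => by rw [gt z hz, if_pos ho])
    have armr : O v r → _ := fun ho => tri_arm X h0 h1 h2 h3 h4 hS (M := M) (g := g) hf hrp hxr ho
      (fun z hz => by rw [gr z hz, if_pos ho])
    refine ⟨?_, ?_⟩
    · refine ⟨by rw [gvp]; exact hk2, hk1, ?_, ?_⟩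
      · rw [sr]
        intro ho
        have h8 := (armr ho).1
        rw [hfr] at h8
        rw [h8]
        exact hA2 ho
      · rw [st, gvp]
        intro ho
        have h8 := (armt ho).1
        rw [hft] at h8
        rw [h8]
        exact hA1 ho
    · have hne : f v p ≠ g v p := by rw [gvp]; exact hy.symm
      obtain ⟨kv, kt, kr, kz⟩ := (h5 H S L X O v p (f v p) k g hne hMg).2
        (by rw [gvp]; exact hk2) hk1
      rw [sr] at kt kz
      rw [st] at kr kz
      funext z
      by_cases hzv : z = v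
      · subst hzv
        rw [kv, gvp]
        ext c
        change (Equiv.swap y k) ((Equiv.swap y (f z p)) (g z c)) = f z c
        rw [gvc]
        exact swap3 hy hk1 hk2
      · by_cases hzr : z ∈ X.Sd (X.nb v r) (X.bar r)
        · rw [kt z hzr]
          by_cases ho : O v r
          · have h8 := (armr ho).2 z hzr
            rw [hfr] at h8
            rw [if_pos ho]
            exact h8
          · rw [if_neg ho, gr z hzr, if_neg ho]
        · by_cases hzt : z ∈ X.Sd (X.nb v t) (X.bar t)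
          · rw [kr z hzt, gvp]
            by_cases ho : O v t
            · have h8 := (armt ho).2 z hzt
              rw [hft] at h8
              rw [if_pos ho]
              exact h8
            · rw [if_neg ho, gt z hzt, if_neg ho]
          · rw [kz z hzv hzr hzt, gz z hzv hzt hzr]
  | succ m ih =>
    intro hy hf hAv
    have hT := h7 H S L X O M (m + 1) v p y k f hS hy hf hAv
    obtain ⟨hO, hAv⟩ := hAv
    obtain ⟨gv, gz⟩ := (h5 H S L X O v p y k f hy hf).1 m
    generalize hg : X.TR O (m + 1) v p y k f = g at gv gz hT ⊢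
    obtain ⟨gvp, hMg⟩ := hT
    generalize hs : (f v).symm y = s at hO hAv gz
    have hfs : f v s = y := by rw [← hs]; simp
    have hsp : s ≠ p := by
      rintro rfl
      exact hy hfs.symm
    have hbr : X.MA O (X.Sd (X.nb v s) (X.bar s)) f := ma_mono X (X.branch_subset hsp) hf
    have hold : f (X.nb v s) (X.bar s) = X.tau y := by
      rw [← hfs]
      exact hf v s (X.self_mem_Sd v p) (X.branch_subset hsp (X.self_mem_Sd _ _)) hO
    have hne : X.tau (f v p) ≠ f (X.nb v s) (X.bar s) := by
      rw [hold]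
      intro h
      exact hy (tau_inj X h).symm
    obtain ⟨i1, i2⟩ := ih (X.nb v s) (X.bar s) (X.tau (f v p)) hne hbr hAv
    obtain ⟨j1, j2⟩ := h7 H S L X O M m (X.nb v s) (X.bar s) (X.tau (f v p)) k f hS hne hbr hAv
    have hloc := ((h6 H S L X O O M m (X.nb v s) (X.bar s) (X.tau (f v p)) k f f hne hbr
      (fun _ _ => rfl) (fun _ _ _ _ => Iff.rfl)).2 hAv).1
    generalize hg0 : X.TR O m (X.nb v s) (X.bar s) (X.tau (f v p)) k f = g0 at gz i1 i2 j1 j2 hloc
    have gvc : ∀ c, g v c = (Equiv.swap (f v p) y) (f v c) := by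
      intro c
      rw [gv]
      rfl
    have gvs : g v s = f v p := by
      rw [gvc, hfs, Equiv.swap_apply_right]
    have ss : (g v).symm (f v p) = s := by rw [← gvs]; simp
    have hzne : ∀ z ∈ X.Sd (X.nb v s) (X.bar s), z ≠ v := by
      intro z hz
      rintro rfl
      exact X.notMem_Sd_bar z s hz
    have hne2 : f (X.nb v s) (X.bar s) ≠ g0 (X.nb v s) (X.bar s) := by
      rw [j1]; exact hne.symm
    have hL := h6 H S L X O O M m (X.nb v s) (X.bar s) (f (X.nb v s) (X.bar s)) k g0 g hne2 j2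
      (fun z hz => gz z (hzne z hz)) (fun _ _ _ _ => Iff.rfl)
    have hAvg := hL.1.2 i1
    refine ⟨?_, ?_⟩
    · refine ⟨by rw [ss]; exact hO, ?_⟩
      rw [ss, gvp, ← hold]
      exact hAvg
    · have hneg : f v p ≠ g v p := by rw [gvp]; exact hy.symm
      obtain ⟨kv, kz⟩ := (h5 H S L X O v p (f v p) k g hneg hMg).1 m
      rw [ss, gvp, ← hold] at kz
      funext z
      by_cases hzv : z = v
      · subst hzv
        rw [kv, gvp]
        ext c
        change (Equiv.swap y (f z p)) (g z c) = f z c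
        rw [gvc, Equiv.swap_comm y (f z p), Equiv.swap_apply_self]
      · rw [kz z hzv]
        by_cases hzs : z ∈ X.Sd (X.nb v s) (X.bar s)
        · rw [(hL.2 i1).2 z hzs, i2]
        · have hMg' : X.MA O (X.Sd (X.nb v s) (X.bar s)) g := ma_mono X (X.branch_subset hsp) hMg
          have hneg' : f (X.nb v s) (X.bar s) ≠ g (X.nb v s) (X.bar s) := by
            rw [gz _ (X.nb_ne v s)]; exact hne2
          have h8 := ((h6 H S L X O O M m (X.nb v s) (X.bar s) (f (X.nb v s) (X.bar s)) k g g
            hneg' hMg' (fun _ _ => rfl) (fun _ _ _ _ => Iff.rfl)).2 hAvg).1 z hzs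
          rw [h8, gz z hzv, hloc z hzs]

end Pool.Agent.Helper75.OE
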