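import Pool.Agent.Helper75.OE.GoalsA2
import Pool.Agent.Helper75.OE.M72B
import Pool.Agent.Helper86.OE.PLOC
import Pool.Agent.Helper69.OE.FREC
import Pool.Agent.Helper22.OE.FLM
import Pool.Agent.Helper53.OE.FLI
import Pool.Agent.Helper3.OE.TREC
import Pool.Agent.Helper46.OE.TLOC
import Pool.Agent.Helper93.OE.TRM
import Pool.Agent.Helper48.OE.BLOC
import Pool.Agent.Helper16.OE.UPM
import Pool.Agent.Helper15.OE.UPI
import Pool.Agent.Helper32.OE.CNT
import Pool.Agent.Helper99.OE.EXA
import Pool.Agent.Helper20.OE.TRB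
import Pool.Agent.Helper86.OE.SIDE
import Pool.Agent.Helper83.OE.INV
import Pool.Agent.Helper86.OE.CHP
import Pool.Agent.Helper56.OE.CH1
import Pool.Agent.Helper93.OE.CH2
import Pool.Agent.Helper16.OE.UPL
import Pool.Agent.Helper30.OE.MED
import Pool.Agent.Helper85.OE.CVX
import Pool.Agent.Helper44.OE.SIZE
import Pool.Agent.Helper56.OE.EXC
import Pool.Agent.Helper19.OE.LOCU
import Pool.Agent.Helper57.OE.AT
import Pool.Agent.Helper15.OE.FAT
import Pool.Agent.Helper57.OE.RINV
import Pool.Agent.Helper82.OE.NOCH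
import Pool.Agent.Helper46.OE.COMPARE
import Pool.Agent.Helper82.OE.STATIC
import Pool.Agent.Helper39.OE.PINV
import Pool.Agent.Helper91.OE.LAB
import Pool.Agent.Helper57.OE.THRU
import Pool.Agent.Helper99.OE.UFIN
import Pool.Agent.Helper53.OE.BALLC
import Pool.Agent.Helper5.OE.DICH
import Pool.Agent.Helper58.OE.BASE
import Pool.Agent.Helper64.OE.NBR
import Pool.Agent.Helper48.OE.STRUCT
import Pool.Agent.Helper70.OE.ORDF
import Pool.Agent.Helper9.OE.M72A
import Pool.Agent.Helper85.OE.WLOW
import Pool.Agent.Helper39.OE.WREC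
import Pool.Agent.Helper93.OE.WIND
import Pool.Agent.Helper14.OE.L74
import Pool.Agent.Helper79.OE.WIT
import Pool.Agent.Helper58.OE.DORD
import Pool.Agent.Helper75.OE.TRI
import Pool.Agent.Helper98.OE.LLOC
import Pool.Agent.Helper79.OE.PICK

/-!
# Project OE (MP_fc0446_an): assembly of the blocks A and B (the deterministic part)
-/

namespace Pool.Agent.Helper75.OE.Asm

open Pool.Agent.Helper73.OE Pool.Agent.Helper75.OE

theorem tlloc : A_LLOC := Helper98.OE.lloc
theorem tpick : A_PICK := Helper79.OE.pick_a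
theorem tploc : A_PLOC := Helper86.OE.ploc
theorem tfrec : A_FREC := Helper69.OE.frec tploc
theorem tflm : A_FLM := Helper22.OE.flm tfrec
theorem tfli : A_FLI := Helper53.OE.fli tlloc tploc tfrec tflm
theorem ttrec : A_TREC := Helper3.OE.trec tploc
theorem ttloc : A_TLOC := Helper46.OE.tloc tlloc tploc
theorem ttrm : A_TRM := Helper93.OE.trm tfrec tflm ttrec ttloc
theorem ttri : A_TRI := tri tlloc tploc tfrec tflm tfli ttrec ttloc ttrm
theorem tbloc : A_BLOC := Helper48.OE.bloc
theorem tupm : A_UPM := Helper16.OE.upm tfrec tflm ttloc ttrm tpick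
theorem tupi : A_UPI := Helper15.OE.upi
theorem tcnt : A_CNT := Helper32.OE.cnt tfrec tflm tfli ttloc ttrm
  ttri tpick
theorem exact_stmt : Exact_stmt :=
  Helper99.OE.exact_stmt tcnt tupm tupi
theorem updMatched_stmt : UpdMatched_stmt :=
  Helper16.OE.updMatched tfrec tflm ttloc ttrm tpick
theorem updLoc_stmt : UpdLoc_stmt := Helper16.OE.upl

theorem tmed : B_MED := Helper30.OE.med
theorem tcvx : B_CVX := Helper85.OE.cvx tmed
theorem tsize : B_SIZE := Helper44.OE.size
theorem texc : B_EXC := Helper56.OE.exc tmed tcvx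
theorem tlocu : B_LOCU := Helper19.OE.locu tbloc tpick
theorem tat : B_AT := Helper57.OE.at_
theorem tfat : B_FAT := Helper15.OE.fat tfrec
theorem trinv : B_RINV := Helper57.OE.rinv tupm
theorem tnoch : B_NOCH := Helper82.OE.noch tlocu
theorem tcompare : B_COMPARE := Helper46.OE.compare tlocu
theorem tstatic : B_STATIC := Helper82.OE.static tlocu tnoch
theorem tpinv : B_PINV := Helper39.OE.pinv tbloc tpick tat tfat trinv
theorem tlab : B_LAB := Helper91.OE.lab tat trinv tpinv
theorem tthru : B_THRU := Helper57.OE.thru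
theorem tufin : B_UFIN := Helper99.OE.ufin texc
theorem tballc : B_BALLC := Helper53.OE.ballc
theorem tdich : B_DICH := Helper5.OE.dich tcvx texc
theorem tbase : B_BASE := Helper58.OE.base tcvx tufin tballc tdich tat trinv
theorem tnbr : B_NBR := Helper64.OE.nbr tat
theorem tstruct : B_STRUCT := Helper48.OE.struct tcvx tdich tbase tnbr tsize tthru
  tlab trinv tat
theorem tord : Helper79.OE.D_ORD := Helper58.OE.ord
theorem tordf : B_ORDF := Helper70.OE.ordf tord
theorem tm72a : B_M72a := Helper9.OE.m72a tcvx tstruct tcompare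
  tnoch tdich tordf
theorem tm72b : B_M72b := m72b tcvx tstruct tstatic tnoch tdich
  tordf tlocu trinv
theorem tl74 : B_L74 := Helper14.OE.l74 Helper85.OE.wlow Helper39.OE.wrec
  (Helper93.OE.wind Helper39.OE.wrec)
theorem wit_stmt : Wit_stmt := Helper79.OE.wit tord tl74 tm72a tm72b

end Pool.Agent.Helper75.OE.Asm
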