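import Pool.Agent.Helper79.OE.IfaceD
import Pool.Agent.Helper75.OE.GoalsA

/-!
# Project OE (MP_fc0446_an): corollaries of GoalsA in the form used by the blocks C and D

All proofs in words are in the docstrings, letters as in GoalsA.lean.
-/

namespace Pool.Agent.Helper75.OE

open Pool.Agent.Helper73.OE Pool.Agent.Helper73.OE.Sys Finset
open scoped ENNReal

/-- PACKET SIDE. May assume `A_TLOC`. Proof: immediate from `A_TLOC` with `m = 2 i.1 + 1`; `MA` on
`Sd v p` follows from `MA` on `univ`, `i ∈ AS` is `Av`. -/
def A_SIDE : Prop :=
  ∀ (H S L : Type) [Group H] [Fintype L] (X : Sys H S L) (P : Par) (O O' : Edges H S)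
    (i : Fin P.J × L) (v : H) (p : S) (y : L) (f f' : Cfg H S L), X.MA O Set.univ f →
    (∀ z ∈ X.Sd v p, f z = f' z) →
    (∀ z r, z ∈ X.Sd v p → X.nb z r ∈ X.Sd v p → (O z r ↔ O' z r)) → f v p ≠ y →
    i ∈ X.AS P O f v p y →
    i ∈ X.AS P O' f' v p y ∧
      ∀ z ∈ X.Sd v p, X.TRi P O i v p y f z = X.TRi P O' i v p y f' z

/-- PACKET INV. May assume `A_TLOC`, `A_TRM`, `A_TRI`. Proof: the edges of `O` are inside `Sd v p`,
inside the other side, or equal to ` (v,p)` or its reverse (`Sd_edge`), which are not in `O`; nothing
changes on the other side (`A_TLOC`); the rest is `A_TRM`, `A_TRI` with `m = 2 i.1 + 1`. -/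
def A_INV : Prop :=
  ∀ (H S L : Type) [Group H] [Fintype L] (X : Sys H S L) (P : Par) (O : Edges H S)
    (i : Fin P.J × L) (v : H) (p : S) (y : L) (f : Cfg H S L), X.Sym O → X.MA O Set.univ f →
    ¬ O v p → f v p ≠ y → i ∈ X.AS P O f v p y →
    X.MA O Set.univ (X.TRi P O i v p y f) ∧ X.TRi P O i v p y f v p = y ∧
      (∀ z, z ∉ X.Sd v p → X.TRi P O i v p y f z = f z) ∧
      i ∈ X.AS P O (X.TRi P O i v p y f) v p (f v p) ∧
      X.TRi P O i v p (f v p) (X.TRi P O i v p y f) = f

open Classical in
/-- PACKET CHP (the number of the seeds for which the update is cheap). May assume `A_PICK`. Proof: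
if the cardinality `N` of the set `A` of the available indices is larger than `cap` both sides are
`0`. Otherwise `u ↦ the i with pick cap A u = some i` is a bijection from `{u < cap | ∃ i, Cheap}` onto
the set on the right (`A_PICK`: `pick cap A u = some i` has for every `i ∈ A` exactly one solution
`u`, and then `u < A.card ≤ cap`). -/
def A_CHP : Prop :=
  ∀ (H S L : Type) [Group H] [Fintype L] (X : Sys H S L) (P : Par) (O : Edges H S)
    (v : H) (s : S) (f : Cfg H S L) (y : L), y = X.tau (f (X.nb v s) (X.bar s)) →
    ((range P.cap).filter fun u => ∃ i, X.Cheap P O v s u f i).card =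
      ((X.AS P O f v s y).filter fun i => (X.AS P O f v s y).card ≤ P.cap ∧
        (X.AS P O (X.TRi P O i v s y f) v s (f v s)).card ≤ P.cap).card

/-- PACKET CH1 (number of vertices changed by a tripod move). Proof (no matching needed): for runs,
by induction on `M` (for all `v p y`): if `¬ Long O f M v p y` there is a finite set `A` with at most
`M` elements such that `flipP O f z n v p y = 1` for all `n` and all `z ∉ A` (`A` is `{v}`
together with the set of the rest if the edge is open). Then for `triP` by induction on `m`: if
`Av O M f m v p y k` there is a finite set with at most `m + 1 + 2 M` elements outside which the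
permutation is `1`. For `m = 2 i.1 + 1` we have `m + 1 ≤ 2 J`. -/
def A_CH1 : Prop :=
  ∀ (H S L : Type) [Group H] [Fintype L] (X : Sys H S L) (P : Par) (O : Edges H S)
    (i : Fin P.J × L) (v : H) (p : S) (y : L) (f : Cfg H S L), i ∈ X.AS P O f v p y →
    ∃ A : Finset H, A.card ≤ 2 * P.J + 2 * P.M ∧ ∀ z, z ∉ A → X.TRi P O i v p y f z = f z

open Classical in
/-- PACKET CH2 (number of vertices changed by a flip). Proof (no matching needed): let `w r` be the
`r`-th vertex of the run (`w 0 = v`, then `w r` of the rest of the run). By induction on `n`: if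
`flipP O f z n v p y ≠ 1` then `z = w r` for some `r ≤ n` with `Long O f r v p y`. So the set of the
changed vertices is contained in the image of `{r | Long O f r v p y}` under `w`; hence the left side,
the number of its elements, is at most the number of elements of this set (compare the sums:
choose for every changed `z` an `r z` with `w (r z) = z`; `r` is injective on the changed vertices;
for example `ENNReal.tsum_comp_le_tsum_of_injective` on the subtype, or `Set.encard` and
`Set.encard_le_encard_of_injOn` with `ENNReal.tsum_set_one`). -/
def A_CH2 : Prop :=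
  ∀ (H S L : Type) [Group H] (X : Sys H S L) (O : Edges H S) (v : H) (p : S) (y : L)
    (f : Cfg H S L),
    (∑' z : H, if X.flip O v p y f z ≠ f z then (1 : ℝ≥0∞) else 0) ≤
      ∑' r : ℕ, if X.Long O f r v p y then (1 : ℝ≥0∞) else 0

/-- PACKET UPL (locality of the update in a volume which contains all open edges and the updated
edge): this is `UpdLoc_stmt` of Pool/Agent/Helper79/OE/IfaceD.lean. May assume `A_PICK`. Proof (no
matching needed): let `O` be inside `Λ` and `f, f'` agree on `Λ`. For `v ∈ Λ`: `Long O f r v p y ↔
Long O f' r v p y` (induction on `r`: the next vertex is in `Λ` if the edge is open; the label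
`f v p` is the same); `flipP O f z n v p y = flipP O f' z n v p y` for all `z`, and `= 1` for
`z ∉ Λ`; `Av O M f m v p y k ↔ Av O M f' m v p y k`, and if available `triP` is the same for all `z`
and `1` for `z ∉ Λ` (induction on `m`). So `AS` is the same for `f, f'`, and `TRi` of an available
index gives configurations which again agree on `Λ`; so `Cheap` is the same, and `Upd` is computed
in the same way (note `h.choose`: the index in `Cheap` is determined by `pick ... = some i`). -/
def A_UPL : Prop := UpdLoc_stmt

end Pool.Agent.Helper75.OE
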