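import Pool.Agent.Helper79.OE.IfaceD

/-!
# Project OE (MP_fc0446_an): compatible trees, statements 7.2 and 7.4

Text: Pool/Agent/Helper73/OE/paper.md, Section 7. The functionals `X.YY`, `X.YR` are in
Pool/Agent/Helper79/OE/IfaceD.lean.
-/

namespace Pool.Agent.Helper75.OE

open Pool.Agent.Helper73.OE Pool.Agent.Helper73.OE.Sys Finset
open scoped ENNReal

/-- The radius `R = 2 J + M + 1` of the balls. -/
def rad (P : Par) : ℕ := 2 * P.J + P.M + 1

/-- The constant `C_R`. -/
noncomputable def CR {H S L : Type} [Group H] [Fintype S] (X : Sys H S L) (P : Par) : ℕ :=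
  2 * (Fintype.card S + 1) * (2 * (X.ball 1 (rad P)).ncard + 3)

/-- A compatible tree `C` at `o` with the special vertices `Sp` and `k` updates. `O` is the set of
open edges, `Sb` the set of the edges of the batch, `q` the configuration. In `run`: `r` is the
direction of the parent of `z`, `r'` the direction from the parent of `z` to its parent, `c` the
direction of the only child of `z` in `C`. -/
structure CT {H S L : Type} [Group H] [Fintype S] (X : Sys H S L) (P : Par) (O Sb : Edges H S)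
    (q : Cfg H S L) (o : H) (C Sp : Finset H) (k : ℕ) : Prop where
  pc : X.PC o (C : Set H)
  sub : Sp ⊆ C
  root : o ∈ Sp
  one : 1 ≤ k
  card : Sp.card ≤ CR X P * k
  edges : ∃ E : Finset (H × S), E.card = k ∧ ∀ e ∈ E, e.1 ∈ Sp ∧ X.nb e.1 e.2 ∈ C ∧
    X.dist o (X.nb e.1 e.2) = X.dist o e.1 + 1 ∧ Sb e.1 e.2
  run : ∀ z ∈ C, z ∉ Sp → ∃ r c r' : S, X.dist o z = X.dist o (X.nb z r) + 1 ∧
    X.dist o (X.nb z r) = X.dist o (X.nb (X.nb z r) r') + 1 ∧ c ≠ r ∧ X.nb z c ∈ C ∧
    (∀ c', X.nb z c' ∈ C → c' = r ∨ c' = c) ∧ O z c ∧ q z c = X.tau (q (X.nb z r) r')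

/-- LEMMA 7.4. -/
def B_L74 : Prop :=
  ∀ (H S L : Type) [Group H] [Fintype S] (X : Sys H S L) (P : Par) (t ζ κ : ℝ≥0∞)
    (O Sb : Edges H S) (q : Cfg H S L) (o : H) (C Sp : Finset H) (k : ℕ),
    ζ ≤ 1 → 1 ≤ κ → CT X P O Sb q o C Sp k →
    t ^ C.card * (ζ ^ (CR X P) * κ) ^ k ≤ X.YR O Sb q t ζ κ o

open Classical in
/-- LEMMA 7.2, first part: if the vertex `v` matters for the value at `o` then there is a compatible
tree at `o` which contains `v` or a neighbour of `v`. -/
def B_M72a : Prop :=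
  ∀ (H S L : Type) [Group H] [Fintype S] [Fintype L] (X : Sys H S L) (P : Par) (ε ε' : ℝ)
    (q : Cfg H S L) (η : Env H S) (u : Seeds H S) (Λ : Finset H) (v o : H),
    X.MA (X.Op ε η) Set.univ q → (∃ l, X.IsOrd ε ε' η ((insert v Λ : Finset H) : Set H) l) →
    X.dyn P ε ε' ((insert v Λ : Finset H) : Set H) q η u o ≠ X.dyn P ε ε' (Λ : Set H) q η u o →
    ∃ (C Sp : Finset H) (k : ℕ), CT X P (X.Op ε η) (X.Si ε ε' η) q o C Sp k ∧
      (v ∈ C ∨ ∃ s, X.nb v s ∈ C)

/-- LEMMA 7.2, second part: if the value at `o` is changed by the dynamics in the volume `Λ`, then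
there is a compatible tree `C` at `o`; if it has one update only and `C` and the neighbours of `C`
are in `Λ` then `o` is changed by the static update at a positive edge of the batch. -/
def B_M72b : Prop :=
  ∀ (H S L : Type) [Group H] [Fintype S] [Fintype L] (X : Sys H S L) (P : Par) (ε ε' : ℝ)
    (q : Cfg H S L) (η : Env H S) (u : Seeds H S) (Λ : Finset H) (o : H),
    X.MA (X.Op ε η) Set.univ q → (∃ l, X.IsOrd ε ε' η (Λ : Set H) l) →
    X.dyn P ε ε' (Λ : Set H) q η u o ≠ q o →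
    ∃ (C Sp : Finset H) (k : ℕ), CT X P (X.Op ε η) (X.Si ε ε' η) q o C Sp k ∧
      (k = 1 → (∀ z ∈ C, z ∈ Λ ∧ ∀ s, X.nb z s ∈ Λ) →
        ∃ v s, X.ChSt P ε ε' q η u v s o)

end Pool.Agent.Helper75.OE
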