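import Pool.Agent.Helper75.OE.CT
import Pool.Agent.Helper75.OE.GoalsA

/-!
# Project OE (MP_fc0446_an): goals for 7.2 and 7.4 (deterministic)

Text: Pool/Agent/Helper73/OE/paper.md, Section 7. Definitions: Helper73/OE/Defs.lean, Geo.lean,
Helper75/OE/CT.lean. Complete proofs in words are in the docstrings.
-/

namespace Pool.Agent.Helper75.OE

open Pool.Agent.Helper73.OE Pool.Agent.Helper73.OE.Sys Finset
open scoped ENNReal

/-! ## Metric geometry of the tree -/

/-- PACKET MED (the metric of the tree).
(1) Triangle inequality: induction on `dist z b`; if `b ≠ z` let `b'` be the parent of `b` towards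
`z` (`exists_parent`): `dist z b' = dist z b - 1`, `dist a b ≤ dist a b' + 1` (`dist_nb_le`).
(2) Different branches: strong induction on `dist x b`. `b ≠ x` (`notMem_Sd_bar`). Let `b'` be the
parent of `b` towards `x`, `b' = nb b r`. If `b' = x` then `b = nb x t'` and `b` is in the branch of
`t'`, so `t' = t` (`branch_unique`), and `a ∈ Sd x t` (`branch_subset`), so
`dist a b = dist a x + 1` (`mem_Sd_iff`). If `b' ≠ x`: `b'` is in the same branch (if not, by `Sd_edge`
the edge from `b` to `b'` would be the edge from `nb x t` to `x`), let `b''` be the parent of `b'`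
towards `x`. By induction `dist a b' = dist a x + dist x b'` and (if `b'' ≠ x`; if `b'' = x` directly)
`dist a b'' = dist a x + dist x b''`, so `b''` is the parent of `b'` towards `a`; `b ≠ b''` is another
neighbour of `b'`, so `dist a b = dist a b' + 1` (`par`, `dist_nb`).
(3) Same branch: `dist a x = dist a (nb x s) + 1`, the same for `b` (`mem_Sd_bar`), triangle
inequality.
(4) Median: if `x` is `o`, `z` or `c` the statement is clear (`dist_self`). Otherwise `o`, `z`, `c`
lie in branches `s`, `t`, `r` at `x` (`exists_branch`); `s ≠ t` by (3); so `r ≠ s` or `r ≠ t`, and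
(2) gives the first or the second alternative. -/
def B_MED : Prop :=
  ∀ (H S L : Type) [Group H] (X : Sys H S L),
    (∀ a z b, X.dist a b ≤ X.dist a z + X.dist z b) ∧
    (∀ (x : H) (s t : S) (a b : H), s ≠ t → a ∈ X.Sd (X.nb x s) (X.bar s) →
      b ∈ X.Sd (X.nb x t) (X.bar t) → X.dist a b = X.dist a x + X.dist x b) ∧
    (∀ (x : H) (s : S) (a b : H), a ∈ X.Sd (X.nb x s) (X.bar s) →
      b ∈ X.Sd (X.nb x s) (X.bar s) → X.dist a b < X.dist a x + X.dist x b) ∧
    (∀ o x z c, X.dist o x + X.dist x z = X.dist o z →
      X.dist o x + X.dist x c = X.dist o c ∨ X.dist c x + X.dist x z = X.dist c z)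

/-- Convex (connected) sets of vertices. -/
def Cvx {H S L : Type} [Group H] (X : Sys H S L) (K : Set H) : Prop :=
  ∀ a ∈ K, ∀ b ∈ K, ∀ z, X.dist a z + X.dist z b = X.dist a b → z ∈ K

/-- The component of `o` in `U`: the geodesic from `o` to `z` is contained in `U`. -/
def Cmp {H S L : Type} [Group H] (X : Sys H S L) (U : Set H) (o : H) : Set H :=
  {z | ∀ x, X.dist o x + X.dist x z = X.dist o z → x ∈ U}

/-- PACKET CVX. May assume `B_MED`. Proofs: (1) let `a, b` be in the ball and `z` between them; by
the median property with `c = v`: `dist a z + dist z v = dist a v` or `dist v z + dist z b = dist v b`;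
in both cases `dist v z ≤ r`. (2) If `a, b` are in the same set it is clear; if `a ∈ K1`, `b ∈ K2` and
`z` is between, by the median property with `c`: `z` is between `a` and `c` (in `K1`) or between `c`
and `b` (in `K2`). (3) The sum of the two distances is `0` or `1`, so one of them is `0`.
(4) `o ∈ Cmp U o`: only `x = o`. `PC`: let `z ∈ Cmp`, `dist o z = dist o z' + 1`, `z' = nb z s`, and
`x` between `o` and `z'`: then `dist o x + dist x z ≤ dist o x + dist x z' + 1 = dist o z`, so with the
triangle inequality `x` is between `o` and `z`. (5) take `x = z`. (6) let `z ∈ K` and `x` between `o`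
and `z`; by the median property with `c`: `x` is between `o` and `c`, so in `U`, or between `c` and
`z`, so in `K`. -/
def B_CVX : Prop :=
  ∀ (H S L : Type) [Group H] (X : Sys H S L),
    (∀ (v : H) (r : ℕ), Cvx X (X.ball v r)) ∧
    (∀ (K1 K2 : Set H) (c : H), Cvx X K1 → Cvx X K2 → c ∈ K1 → c ∈ K2 → Cvx X (K1 ∪ K2)) ∧
    (∀ (v : H) (s : S), Cvx X {v, X.nb v s}) ∧
    (∀ (U : Set H) (o : H), o ∈ U → o ∈ Cmp X U o ∧ X.PC o (Cmp X U o)) ∧
    (∀ (U : Set H) (o : H), Cmp X U o ⊆ U) ∧
    (∀ (U K : Set H) (o c : H), Cvx X K → K ⊆ U → c ∈ K → c ∈ Cmp X U o → K ⊆ Cmp X U o)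

open Classical in
/-- PACKET SIZE (a statement about finite rooted trees). The children of `z` in `C` are the
`nb z c ∈ C` with `dist o (nb z c) = dist o z + 1`. Proof: let `ch z` be the number of directions `c`
which lead to a child of `z` in `C`. Counting the elements of `C` different from `o` by their
parents (`exists_parent`, `parent_unique`, `PC`): `∑ z ∈ C, ch z = C.card - 1`. Let `A0` = vertices of
`C` with `ch z = 0` and `A2` = vertices of `C` with `ch z ≥ 2`. Then
`C.card - 1 ≥ (C.card - A0.card) + A2.card`, so `A2.card < A0.card ≤ base.card` (`A0 ⊆ base` by the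
hypothesis). Put `base' = base ∪ A2`, `base'.card ≤ 2 * base.card`, and `Sp = base' ∪` the neighbours
in `C` of the vertices of `base'`; `Sp.card ≤ (card S + 1) * base'.card`. Let `z ∈ C`, `z ∉ Sp`. As
`z ∉ base'` it has exactly one child in `C`, with direction `c`; `z ≠ o`, let `r` be the direction of
the parent, `nb z r ∈ C`; every `nb z c' ∈ C` is the parent or a child (`dist_nb`): `c' = r` or
`c' = c`. `z1 = nb z r` is not in `base'` (otherwise `z ∈ Sp`), so it is not `o`, has a parent (direction
`r'`) and exactly one child in `C`, which is `z` (direction `bar r`, `nb_bar`). `r' ≠ bar r` because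
`nb z1 (bar r) = z` is farther from `o`. -/
def B_SIZE : Prop :=
  ∀ (H S L : Type) [Group H] [Fintype S] (X : Sys H S L) (o : H) (C base : Finset H),
    X.PC o (C : Set H) → base ⊆ C → o ∈ base →
    (∀ z ∈ C, z ∉ base → ∃ c, X.nb z c ∈ C ∧ X.dist o (X.nb z c) = X.dist o z + 1) →
    ∃ Sp : Finset H, base ⊆ Sp ∧ Sp ⊆ C ∧
      Sp.card ≤ 2 * (Fintype.card S + 1) * base.card ∧
      ∀ z ∈ C, z ∉ Sp → ∃ r c r' : S,
        X.dist o z = X.dist o (X.nb z r) + 1 ∧
        X.dist o (X.nb z r) = X.dist o (X.nb (X.nb z r) r') + 1 ∧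
        c ≠ r ∧ r' ≠ X.bar r ∧ X.nb z c ∈ C ∧ X.nb z r ∈ C ∧ X.nb z r ∉ base ∧
        (∀ c', X.nb z c' ∈ C → c' = r ∨ c' = c) ∧
        (∀ c', X.nb (X.nb z r) c' ∈ C → c' = r' ∨ c' = X.bar r)

/-! ## Explored sets -/

/-- The explored set of the update at `e` in the state ` (O, f)`. -/
def Ex {H S L : Type} [Group H] (X : Sys H S L) (P : Par) (O : Edges H S) (f : Cfg H S L)
    (e : H × S) : Set H :=
  {z | X.dist e.1 z ≤ rad P ∨ X.dist (X.nb e.1 e.2) z ≤ rad P ∨
    X.OnRun O f (X.nb e.1 e.2) (X.bar e.2) (X.tau (f e.1 e.2)) z}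

/-- PACKET EXC. May assume `B_MED`, `B_CVX`. Proof: the run from `w` (no matching needed) is convex:
first, for `b` on the run, every `z` between `w` and `b` is on the run, by induction on `OnRun`
(`here`: `z = w`; `step`: by the median property with `c = w'`, the second vertex of the run, `z` is
between `w` and `w'`, so `z ∈ {w, w'}`, or between `w'` and `b`: induction). Then for `a, b` on the run
use the median property with `c = w`. The explored set is the union of two balls which both
contain `e.1` and of the run, which contains `nb e.1 e.2`. Finiteness: the run is contained in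
`{nb e.1 e.2} ∪ Λ` (induction on `OnRun`), `finite_ball`. -/
def B_EXC : Prop :=
  ∀ (H S L : Type) [Group H] (X : Sys H S L) (P : Par) (O : Edges H S) (f : Cfg H S L)
    (e : H × S), Cvx X (Ex X P O f e) ∧
    ([Finite S] → ∀ Λ : Set H, Λ.Finite → (∀ z r, O z r → z ∈ Λ ∧ X.nb z r ∈ Λ) →
      (Ex X P O f e).Finite)

/-- PACKET LOCU (locality of the update on the explored set; no matching needed). May assume
`A_BLOC`, `A_PICK`. Let `v = e.1`, `w = nb v e.2`, `K = Ex X P O f e`. For runs (induction on
`OnRun` resp. on the fuel): if `f', f` and `O', O` agree at the vertices of the run of ` (O,f)` from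
` (w, p, y)` then the run of ` (O',f')` has the same vertices, `flipP` is the same for all `z`, and it is
`1` for `z` not on the run. `f', f` agree at `v, w ∈ K`, so the labels `tau (f w (bar s))`,
`tau (f v s)` are the same. For the indices: by `A_BLOC` (with centre positions `m = 2 i.1 + 1`,
`m + M ≤ 2 J - 1 + M < rad P`) availability for ` (O,f)` and ` (O',f')` is the same, and for an available
index `TRi` agrees at all `z` with `dist v z ≤ rad P` and changes nothing at other `z`. So `AS` is
the same, and `AS` after the move is the same (again `A_BLOC`), so `Cheap` is the same and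
`h.choose` is the same index (it is determined by `pick ... = some i`; or rewrite the predicate
`Cheap` by `funext`/`propext`). -/
def B_LOCU : Prop :=
  ∀ (H S L : Type) [Group H] [Fintype L] (X : Sys H S L) (P : Par) (O O' : Edges H S)
    (f f' : Cfg H S L) (e : H × S) (u : ℕ), (∀ z ∈ Ex X P O f e, f' z = f z) →
    (∀ z ∈ Ex X P O f e, ∀ r, O' z r ↔ O z r) →
    Ex X P O' f' e = Ex X P O f e ∧
      (∀ z ∈ Ex X P O f e, X.Upd P O' e.1 e.2 u f' z = X.Upd P O e.1 e.2 u f z) ∧
      (∀ z, z ∉ Ex X P O f e → X.Upd P O e.1 e.2 u f z = f z)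

/-! ## The states of a run -/

/-- The run from `v` with the in-direction `p` and the new label `y` arrives at `z` with the
in-direction `p'` and the new label `y'`. -/
inductive At {H S L : Type} [Group H] (X : Sys H S L) (O : Edges H S) (f : Cfg H S L) :
    H → S → L → H → S → L → Prop
  | here (v : H) (p : S) (y : L) : At X O f v p y v p y
  | step (v : H) (p : S) (y : L) (z : H) (p' : S) (y' : L) (ho : O v ((f v).symm y))
      (h : At X O f (X.nb v ((f v).symm y)) (X.bar ((f v).symm y)) (X.tau (f v p)) z p' y') :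
      At X O f v p y z p' y'

/-- PACKET AT. Proofs: induction on `At` (and on `OnRun` for (1)). (4): for `y ≠ f v p` and a run in
matched edges the basic fact of GoalsA holds at every step (no geometry needed: if the edge
` (v,s)` is open then `f v' p' = tau (f v s) = tau y ≠ tau (f v p)`, as `tau` is injective by
`tau_tau`). (5): if `At` is `here` for one of the two the run has one vertex only. (6): if
`y = f v p` then ` (f v).symm y = p`, and ` (v,p)` is closed: there is no `step`. -/
def B_AT : Prop :=
  ∀ (H S L : Type) [Group H] (X : Sys H S L) (O : Edges H S) (f : Cfg H S L) (v : H) (p : S)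
    (y : L),
    (∀ z, X.OnRun O f v p y z ↔ ∃ p' y', At X O f v p y z p' y') ∧
    (∀ z p' y', At X O f v p y z p' y' → O z ((f z).symm y') →
      At X O f v p y (X.nb z ((f z).symm y')) (X.bar ((f z).symm y')) (X.tau (f z p'))) ∧
    (∀ z p' y', At X O f v p y z p' y' → (z = v ∧ p' = p ∧ y' = y) ∨
      ∃ z1 p1 y1, At X O f v p y z1 p1 y1 ∧ O z1 ((f z1).symm y1) ∧
        z = X.nb z1 ((f z1).symm y1) ∧ p' = X.bar ((f z1).symm y1) ∧ y' = X.tau (f z1 p1)) ∧
    (X.MA O Set.univ f → y ≠ f v p → ∀ z p' y', At X O f v p y z p' y' → y' ≠ f z p') ∧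
    (∀ z1 p1 y1 z2 p2 y2, At X O f v p y z1 p1 y1 → ¬ O z1 ((f z1).symm y1) →
      At X O f v p y z2 p2 y2 → ¬ O z2 ((f z2).symm y2) → z1 = z2) ∧
    (¬ O v p → y = f v p → ∀ z p' y', At X O f v p y z p' y' → z = v)

open Classical in
/-- PACKET FAT (the flip in terms of the states). May assume `A_FREC`, `B_AT`. Proof: (1) induction
on `At`: `here`: `A_FREC` (1). `step`: `z ∈ Sd v' p'` (the rest of a run in matched edges stays in
the side of its start: induction), so `z ≠ v`, and `A_FREC` (3) with the induction hypothesis for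
the rest (the basic fact of GoalsA). (2) `flipP O f z n v p y = 1` for `z` not on the run,
induction on `n` (no matching needed). -/
def B_FAT : Prop :=
  ∀ (H S L : Type) [Group H] (X : Sys H S L) (O : Edges H S) (f : Cfg H S L) (v : H) (p : S)
    (y : L),
    (X.MA O Set.univ f → y ≠ f v p → ∀ z p' y', At X O f v p y z p' y' →
      X.flip O v p y f z = (f z).trans (Equiv.swap (f z p') y')) ∧
    (∀ z, ¬ X.OnRun O f v p y z → X.flip O v p y f z = f z)

/-! ## Histories -/

/-- In the history which begins in the state ` (O, f)` and updates the edges of the list, `e'` is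
updated in the state ` (O', f')`. -/
def Rec {H S L : Type} [Group H] [Fintype L] (X : Sys H S L) (P : Par) (u : H × S → ℕ) :
    List (H × S) → Edges H S → Cfg H S L → (H × S) → Edges H S → Cfg H S L → Prop
  | [], _, _, _, _, _ => False
  | e :: l, O, f, e', O', f' => (e' = e ∧ O' = O ∧ f' = f) ∨
      Rec X P u l (X.addE O e) (X.Upd P O e.1 e.2 (u e) f) e' O' f'

/-- The edges of the list are closed in `O` and are different (as undirected edges). -/
def Fr {H S L : Type} [Group H] (X : Sys H S L) (O : Edges H S) (l : List (H × S)) : Prop :=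
  (∀ e ∈ l, ¬ O e.1 e.2) ∧ l.Pairwise (fun e e' => e ≠ e' ∧ e' ≠ X.rev e)

/-- PACKET RINV (invariants of a history). May assume `A_UPM`. Proof: induction on the list: if
`O` is symmetric then so is `addE O e` (`rev_rev`), `MA` is kept by `A_UPM`, the later edges of the
list are closed in `addE O e` by the second part of `Fr` (an edge of the list is neither `e` nor
`rev e`). Last statement: induction on the list; `e'` occurs once. -/
def B_RINV : Prop :=
  ∀ (H S L : Type) [Group H] [Fintype L] (X : Sys H S L) (P : Par) (u : H × S → ℕ)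
    (l : List (H × S)) (O : Edges H S) (f : Cfg H S L), X.Sym O → X.MA O Set.univ f →
    Fr X O l →
    (∀ e' O' f', Rec X P u l O f e' O' f' →
      e' ∈ l ∧ X.Sym O' ∧ X.MA O' Set.univ f' ∧ ¬ O' e'.1 e'.2 ∧ (∀ z r, O z r → O' z r) ∧
      ∀ z r, O' z r → O z r ∨ (z, r) ∈ l ∨ X.rev (z, r) ∈ l) ∧
    (∀ e' ∈ l, ∃ O' f', Rec X P u l O f e' O' f') ∧
    (∀ e' O' f' O'' f'', Rec X P u l O f e' O' f' → Rec X P u l O f e' O'' f'' →
      O' = O'' ∧ f' = f'')

/-- PACKET NOCH (an explored set contains every vertex which is changed). May assume `B_LOCU`.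
Proof: induction on the list, third statement of `B_LOCU`. -/
def B_NOCH : Prop :=
  ∀ (H S L : Type) [Group H] [Fintype L] (X : Sys H S L) (P : Par) (u : H × S → ℕ)
    (l : List (H × S)) (O : Edges H S) (f : Cfg H S L) (x : H),
    (∀ e' O' f', Rec X P u l O f e' O' f' → x ∉ Ex X P O' f' e') →
    X.dynL P u l O f x = f x

open Classical in
/-- PACKET COMPARE (two histories agree on `C`). `b` says which edges of the list are updated in
the first history. May assume `B_LOCU`. Proof: induction on `l`. Let `l = e :: t`; `e.1` and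
`nb e.1 e.2` are in every explored set at `e`. If `b e` holds: the filtered list is `e ::` the filtered
`t`. Let `K1`, `K2` be the explored sets of the first update in the two histories. If `e.1 ∈ C` then
`K1 ⊆ C` and `K2 ⊆ C`; by `B_LOCU` (agreement on `K1`) `K2 = K1`, the results agree on `K1`, and
outside `K1` nothing changes. If `e.1 ∉ C` both are disjoint from `C` and nothing changes on `C`. In
both cases `addE O1 e` and `addE O2 e` agree at the vertices of `C`. If `b e` fails: only the second
history makes an update; `K2` is not contained in `C`, so it is disjoint from `C`: nothing changes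
on `C`, and the new open edges ` (z,r) = e` or `rev e` have `z ∈ K2`, so `z ∉ C`. Use the induction
hypothesis for the new states. -/
def B_COMPARE : Prop :=
  ∀ (H S L : Type) [Group H] [Fintype L] (X : Sys H S L) (P : Par) (u : H × S → ℕ)
    (b : H × S → Prop) (l : List (H × S)) (O1 O2 : Edges H S) (f1 f2 : Cfg H S L) (C : Set H),
    (∀ z ∈ C, f1 z = f2 z) → (∀ z ∈ C, ∀ r, O1 z r ↔ O2 z r) →
    (∀ e' O' f', Rec X P u (l.filter (fun e => decide (b e))) O1 f1 e' O' f' →
      Ex X P O' f' e' ⊆ C ∨ Disjoint (Ex X P O' f' e') C) →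
    (∀ e' O' f', Rec X P u l O2 f2 e' O' f' →
      Ex X P O' f' e' ⊆ C ∨ Disjoint (Ex X P O' f' e') C) →
    (∀ e ∈ l, ¬ b e → e.1 ∉ C ∨ X.nb e.1 e.2 ∉ C) →
    ∀ z ∈ C, X.dynL P u (l.filter (fun e => decide (b e))) O1 f1 z = X.dynL P u l O2 f2 z

/-- PACKET STATIC (only one update touches `C`). May assume `B_LOCU`, `B_NOCH`. Proof: induction
on `l`. Let `l = e' :: t`. If `e' ≠ e`: the explored set is disjoint from `C`, so on `C` the new
configuration is `f` and the new edges do not touch `C` (both ends are in the explored set); use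
the induction hypothesis for `t`. If `e' = e`: the record is the present state; all later explored
sets are disjoint from `C` (`e ∉ t`), so `o` does not change any more (`B_NOCH`). If `e ∉ l` nothing
changes at `o` (`B_NOCH`), contradiction. -/
def B_STATIC : Prop :=
  ∀ (H S L : Type) [Group H] [Fintype L] (X : Sys H S L) (P : Par) (u : H × S → ℕ)
    (l : List (H × S)) (O : Edges H S) (f : Cfg H S L) (C : Set H) (e : H × S) (o : H),
    l.Nodup → o ∈ C → X.dynL P u l O f o ≠ f o →
    (∀ e' O' f', Rec X P u l O f e' O' f' → e' ≠ e → Disjoint (Ex X P O' f' e') C) →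
    ∃ O' f', Rec X P u l O f e O' f' ∧ (∀ z ∈ C, f' z = f z) ∧
      (∀ z ∈ C, ∀ r, O' z r ↔ O z r) ∧
      X.Upd P O' e.1 e.2 (u e) f' o = X.dynL P u l O f o

/-! ## The label pairs -/

/-- The update at `e` in the state ` (O, f)` acts at `z`, if at all, by a run which passes through
`z`, not ending there, in the directions `a, b`. -/
def Thr {H S L : Type} [Group H] (X : Sys H S L) (P : Par) (O : Edges H S) (f : Cfg H S L)
    (e : H × S) (z : H) (a b : S) : Prop :=
  rad P < X.dist e.1 z ∧ rad P < X.dist (X.nb e.1 e.2) z ∧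
    ∀ p' y', At X O f (X.nb e.1 e.2) (X.bar e.2) (X.tau (f e.1 e.2)) z p' y' →
      O z ((f z).symm y') ∧ ((p' = a ∧ (f z).symm y' = b) ∨ (p' = b ∧ (f z).symm y' = a))

/-- PACKET PINV (the pair of labels is invariant in time). May assume `A_BLOC`, `A_PICK`, `B_AT`,
`B_FAT`, `B_RINV`. Proof: one step: let `g = Upd P O e.1 e.2 (u e) f`. If the edge is matched
`g = f`. If the move is cheap, `TRi` is available (`A_PICK`) and changes only vertices at distance
`≤ m + M < rad P` from `e.1` (`A_BLOC`), so `g z = f z`. Otherwise `g` is the flip of the run from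
`w = nb e.1 e.2` with `y = tau (f e.1 e.2) ≠ f w (bar e.2)`. If `z` is not on the run `g z = f z`
(`B_FAT`). If `At ... z p' y'`: `g z = (f z).trans (swap (f z p') y')`, and `y' = f z (s')`,
`s' = (f z).symm y'`, so the labels of the directions `p'` and `s'` are exchanged, and
`{p', s'} = {a, b}` by `Thr`. Then induction on the list (composition of exchanges). -/
def B_PINV : Prop :=
  ∀ (H S L : Type) [Group H] [Fintype L] (X : Sys H S L) (P : Par) (u : H × S → ℕ)
    (l : List (H × S)) (O : Edges H S) (f : Cfg H S L) (z : H) (a b : S), X.Sym O →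
    X.MA O Set.univ f → Fr X O l →
    (∀ e' O' f', Rec X P u l O f e' O' f' → Thr X P O' f' e' z a b) →
    ∀ e' O' f', Rec X P u l O f e' O' f' →
      (f' z a = f z a ∧ f' z b = f z b) ∨ (f' z a = f z b ∧ f' z b = f z a)

/-- PACKET LAB (property (b) of a compatible tree). May assume `B_AT`, `B_RINV`, `B_PINV`. Let
`z1 = nb z r`, `c1 = bar r` (so `nb z1 c1 = z`). Take the record ` (e, O', f')` with `z` on its run:
`At ... z p' y'`; put `s' = (f' z).symm y'`; `O' z s'` by `Thr`, and `z` is not the start `w` of the run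
(`Thr`: `rad P < dist w z`), so by `B_AT` (3) it has a predecessor `z0` with state ` (p0, y0)`,
`s0 = (f' z0).symm y0`, `O' z0 s0`, `z = nb z0 s0`, `p' = bar s0`, `y' = tau (f' z0 p0)`; by `Sym`
`O' z p'`. So `O' z c` and `O' z r`, and both edges are matched in `f'`. They are not updated edges:
if ` (z,c)` or ` (z,r)` or a reverse is in `l` there is a record at it (`B_RINV`) and `Thr` says that
`z` is far from its ends. So `O z c`, `O z r` (`B_RINV`, last inclusion), and by `MA O univ q` and
symmetry `q z r = tau (q z1 c1)`; also `f' z r = tau (f' z1 c1)`.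
Claim: `f' z c = tau (f' z1 r')`. Case `p' = r`, `s' = c`: `z0 = nb z p' = z1`, `s0 = c1`, by `Thr` for
`z1` `p0 = r'`, so `f' z c = y' = tau (f' z1 r')`. Case `p' = c`, `s' = r`: the run goes on to `z1`
(`B_AT` (2)) with in-direction `c1` and new label `tau (f' z c)`; by `Thr` for `z1` the out-direction
there is `r'` (it is in `{r', c1}` together with the in-direction `c1`, and `r' ≠ c1`), so
`f' z1 r' = tau (f' z c)`.
By `B_PINV` the pairs ` (f' z r, f' z c)` and ` (q z r, q z c)` are equal or exchanged, the same for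
` (f' z1 c1, f' z1 r')` and ` (q z1 c1, q z1 r')`. Both equal or both exchanged: `q z c = tau (q z1 r')`.
One equal and one exchanged: one gets `q z c = q z r` or `q z1 r' = q z1 c1`, impossible. -/
def B_LAB : Prop :=
  ∀ (H S L : Type) [Group H] [Fintype L] (X : Sys H S L) (P : Par) (u : H × S → ℕ)
    (l : List (H × S)) (O : Edges H S) (q : Cfg H S L) (z : H) (r c r' : S), X.Sym O →
    X.MA O Set.univ q → Fr X O l → c ≠ r → r' ≠ X.bar r →
    (∀ e' O' f', Rec X P u l O q e' O' f' → Thr X P O' f' e' z r c ∧
      Thr X P O' f' e' (X.nb z r) r' (X.bar r)) →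
    (∃ e' O' f', Rec X P u l O q e' O' f' ∧
      X.OnRun O' f' (X.nb e'.1 e'.2) (X.bar e'.2) (X.tau (f' e'.1 e'.2)) z) →
    O z c ∧ q z c = X.tau (q (X.nb z r) r')

/-- PACKET THRU. May assume `B_AT`. Let `w = nb e.1 e.2`, `p = bar e.2`, `y = tau (f e.1 e.2)`.
Proof: let `At ... z p' y'`, `s' = (f z).symm y'`. `O z s'` by hypothesis. `z ≠ w` because
`dist w z` is positive. So `y ≠ f w p` (otherwise `B_AT` (6) gives `z = w`), and `y' ≠ f z p'`
(`B_AT` (4)), so `s' ≠ p'`. The next vertex `nb z s'` is on the run (`B_AT` (2), (1)), so in `C`; the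
previous vertex is `nb z p'` (`B_AT` (3), `nb_bar`), so in `C`. So `p', s' ∈ {a, b}`, different. -/
def B_THRU : Prop :=
  ∀ (H S L : Type) [Group H] (X : Sys H S L) (P : Par) (O : Edges H S) (f : Cfg H S L)
    (e : H × S) (C : Set H) (z : H) (a b : S), X.MA O Set.univ f → X.Sym O → ¬ O e.1 e.2 →
    rad P < X.dist e.1 z → rad P < X.dist (X.nb e.1 e.2) z → Ex X P O f e ⊆ C →
    (∀ p' y', At X O f (X.nb e.1 e.2) (X.bar e.2) (X.tau (f e.1 e.2)) z p' y' →
      O z ((f z).symm y')) →
    (∀ c', X.nb z c' ∈ C → c' = a ∨ c' = b) → Thr X P O f e z a b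

end Pool.Agent.Helper75.OE
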