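import Pool.Agent.Helper75.OE.GoalsB
import Pool.Agent.Helper79.OE.GoalsD

/-!
# Project OE (MP_fc0446_an): assembly of 7.2 and 7.4

Text: Pool/Agent/Helper73/OE/paper.md, Section 7. The statements `B_...` of GoalsB.lean may be
assumed where indicated. Complete proofs in words are in the docstrings.
-/

namespace Pool.Agent.Helper75.OE

open Pool.Agent.Helper73.OE Pool.Agent.Helper73.OE.Sys Finset
open scoped ENNReal

/-! ## Two histories -/

/-- The union of the explored sets of a history. -/
def UU {H S L : Type} [Group H] [Fintype L] (X : Sys H S L) (P : Par) (u : H × S → ℕ)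
    (l : List (H × S)) (O : Edges H S) (f : Cfg H S L) : Set H :=
  {z | ∃ e' O' f', Rec X P u l O f e' O' f' ∧ z ∈ Ex X P O' f' e'}

/-- The data of two histories, in the volume `Λ`, with the lists `l1, l2`, open edges `O1, O2` at the
beginning, both starting with the configuration `q`; `O` is the set of open edges in infinite
volume and `Sb` the set of edges of the batch. -/
structure TwoH {H S L : Type} [Group H] (X : Sys H S L) (O Sb : Edges H S) (q : Cfg H S L)
    (Λ : Finset H) (l1 l2 : List (H × S)) (O1 O2 : Edges H S) : Prop where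
  symO : X.Sym O
  symS : X.Sym Sb
  ma : X.MA O Set.univ q
  sub1 : ∀ z r, O1 z r → O z r ∧ z ∈ Λ ∧ X.nb z r ∈ Λ
  sub2 : ∀ z r, O2 z r → O z r ∧ z ∈ Λ ∧ X.nb z r ∈ Λ
  sym1 : X.Sym O1
  sym2 : X.Sym O2
  lin : ∀ e ∈ l2, e.1 ∈ Λ ∧ X.nb e.1 e.2 ∈ Λ
  lsub : ∀ e ∈ l1, e ∈ l2
  lS : ∀ e ∈ l2, Sb e.1 e.2 ∧ ¬ O e.1 e.2
  fr1 : l1.Pairwise (fun e e' => e ≠ e' ∧ e' ≠ X.rev e)
  fr2 : l2.Pairwise (fun e e' => e ≠ e' ∧ e' ≠ X.rev e)

/-- PACKET UFIN. May assume `B_EXC`. Proof: induction on the list: `UU (e :: l) O f` is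
`Ex O f e ∪ UU l (addE O e) (Upd ...)`, and all edges of `addE O e` are inside `Λ`. -/
def B_UFIN : Prop :=
  ∀ (H S L : Type) [Group H] [Finite S] [Fintype L] (X : Sys H S L) (P : Par) (u : H × S → ℕ)
    (l : List (H × S)) (O : Edges H S) (f : Cfg H S L) (Λ : Set H), Λ.Finite →
    (∀ z r, O z r → z ∈ Λ ∧ X.nb z r ∈ Λ) → (∀ e ∈ l, e.1 ∈ Λ ∧ X.nb e.1 e.2 ∈ Λ) →
    (UU X P u l O f).Finite

/-- PACKET BALLC. Proof: `ball v r` is the image of `ball 1 r` under the injective map
`z ↦ v * z` (`dist_mul`), `Set.ncard_image_of_injective`. -/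
def B_BALLC : Prop :=
  ∀ (H S L : Type) [Group H] (X : Sys H S L) (v : H) (r : ℕ),
    (X.ball v r).ncard = (X.ball 1 r).ncard

/-- PACKET DICH (an explored set which meets the component is contained in it). May assume `B_CVX`,
`B_EXC`. Proof: `Ex` is convex (`B_EXC`) and contained in `U`; `B_CVX` (6). -/
def B_DICH : Prop :=
  ∀ (H S L : Type) [Group H] [Fintype L] (X : Sys H S L) (P : Par) (O : Edges H S)
    (f : Cfg H S L) (e : H × S) (U : Set H) (o : H), Ex X P O f e ⊆ U →
    Ex X P O f e ⊆ Cmp X U o ∨ Disjoint (Ex X P O f e) (Cmp X U o)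

open Classical in
/-- PACKET BASE (the vertices which are in balls or last vertices of runs). May assume `B_CVX`,
`B_EXC`, `B_UFIN`, `B_BALLC`, `B_DICH`, `B_AT`, `B_RINV`. Let `U = UU l1 O1 ∪ UU l2 O2`,
`A = {e ∈ l2 | e.1 ∈ C}` (a `Finset`), with `k` elements (`l2` has no repetition). `C` is finite
(`B_UFIN`, `Cmp ⊆ U`). For `e ∈ A` and each of the two histories there is at most one record at `e`
(`B_RINV`) and its run has at most one last vertex (`B_AT` (5)): the set of the last vertices `z`
(`∃ p' y', At ... z p' y' ∧ ¬ O' z ((f' z).symm y')`) of the records at `e` in the two histories has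
at most `2` elements. `base` is `{o}` together with the balls about `e.1` and `nb e.1 e.2` for
`e ∈ A` (each has ` (ball 1 (rad P)).ncard` elements) and these last vertices. `base ⊆ C`: for
`e ∈ A` the explored set of the record at `e` in the second history (it exists, `B_RINV`) meets
`C` (in `e.1`), so it is contained in `C` (`B_DICH`); it contains the balls. The last vertices
are in the explored set of their record, which contains `e.1 ∈ C`, so it is contained in `C`.
`k ≥ 1`: `o ∈ U` is in the explored set of a record at some `e'`; this set meets `C` (`o ∈ C`, `B_CVX`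
(4)), so it is contained in `C`, and it contains `e'.1`; `e' ∈ l2`. -/
def B_BASE : Prop :=
  ∀ (H S L : Type) [Group H] [Fintype S] [Fintype L] (X : Sys H S L) (P : Par)
    (u : H × S → ℕ) (O Sb : Edges H S) (q : Cfg H S L) (Λ : Finset H) (l1 l2 : List (H × S))
    (O1 O2 : Edges H S) (o : H) (U : Set H), TwoH X O Sb q Λ l1 l2 O1 O2 →
    U = UU X P u l1 O1 q ∪ UU X P u l2 O2 q → o ∈ U →
    ∃ C base : Finset H, (C : Set H) = Cmp X U o ∧ base ⊆ C ∧ o ∈ base ∧
      1 ≤ (l2.toFinset.filter fun e => e.1 ∈ C).card ∧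
      base.card ≤ 1 + (l2.toFinset.filter fun e => e.1 ∈ C).card *
        (2 * (X.ball 1 (rad P)).ncard + 2) ∧
      (∀ e ∈ l2, e.1 ∈ C → ∀ z, X.dist e.1 z ≤ rad P ∨ X.dist (X.nb e.1 e.2) z ≤ rad P →
        z ∈ base) ∧
      (∀ e' O' f', Rec X P u l1 O1 q e' O' f' ∨ Rec X P u l2 O2 q e' O' f' → e'.1 ∈ C →
        ∀ z p' y', At X O' f' (X.nb e'.1 e'.2) (X.bar e'.2) (X.tau (f' e'.1 e'.2)) z p' y' →
          ¬ O' z ((f' z).symm y') → z ∈ base)

/-- PACKET NBR (neighbours of an inner vertex of a run). May assume `B_AT`. Proof: as in the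
docstring of `B_THRU` (GoalsB.lean): `z ≠ w`, so `B_AT` (6) and (4) give `y' ≠ f z p'`, the next
vertex is on the run by (2), the previous vertex is `nb z p'` by (3) and `nb_bar`. -/
def B_NBR : Prop :=
  ∀ (H S L : Type) [Group H] (X : Sys H S L) (O : Edges H S) (f : Cfg H S L) (e : H × S)
    (z : H) (p' : S) (y' : L), X.MA O Set.univ f → X.Sym O → ¬ O e.1 e.2 →
    At X O f (X.nb e.1 e.2) (X.bar e.2) (X.tau (f e.1 e.2)) z p' y' → z ≠ X.nb e.1 e.2 →
    O z ((f z).symm y') →
    (f z).symm y' ≠ p' ∧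
      X.OnRun O f (X.nb e.1 e.2) (X.bar e.2) (X.tau (f e.1 e.2)) (X.nb z p') ∧
      X.OnRun O f (X.nb e.1 e.2) (X.bar e.2) (X.tau (f e.1 e.2)) (X.nb z ((f z).symm y'))

open Classical in
/-- PACKET STRUCT (the component of `o` is a compatible tree). May assume `B_CVX`, `B_DICH`,
`B_BASE`, `B_NBR`, `B_SIZE`, `B_THRU`, `B_LAB`, `B_RINV`, `B_AT`. Take `C`, `base` from `B_BASE`.
Invariants of the records: `B_RINV` (note `MA O1 univ q` and `Fr O1 l1` follow from `TwoH`).
(1) `C` is `PC o` (`B_CVX` (4)).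
(2) Let `z ∈ C`, `z ∉ base`. `z` is in the explored set `K` of a record ` (e, O', f')` of one of the two
histories, `K ⊆ C` (`B_DICH`; `K ⊆ U`), so `e.1 ∈ C`, `e ∈ l2`; `z` is not in the two balls, so `z`
is on the run (and not its start `nb e.1 e.2`, at distance `0` from itself), in a state ` (p', y')`
(`B_AT` (1)), and it is not a last vertex: `O' z ((f' z).symm y')`. By `B_NBR` there are two
different directions at `z` which lead to vertices of the run, so of `C`; at most one of them is the
direction of the parent (`parent_unique`), the other leads to a child in `C`. So `B_SIZE` applies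
and gives `Sp`.
(3) `Sp.card ≤ 2 (n+1) base.card ≤ 2 (n+1) (1 + k (2 b + 2)) ≤ 2 (n+1) (2 b + 3) k = CR X P * k`,
as `k ≥ 1`, `b = (ball 1 (rad P)).ncard`.
(4) `edges`: for `e ∈ l2` with `e.1 ∈ C` both ends are in `base ⊆ Sp`; take `e` or `rev e`, whichever
leads away from `o` (`dist_nb`); this map is injective by `fr2`; `Sb` is symmetric.
(5) `run`: let `z ∈ C`, `z ∉ Sp`; take `r, c, r'` from `B_SIZE`, `z1 = nb z r`; `z, z1 ∉ base`. As in
(2) `z` is on the run of a record ` (e, O', f')` of one of the two histories; consider this history.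
For every record ` (e'', O'', f'')` of it `Thr ... z r c` and `Thr ... z1 r' (bar r)` hold: if its
explored set is disjoint from `C` then `z`, `z1` are not in it: they are far and there is no `At` (`B_AT`
(1)); if it is contained in `C` then `e''.1 ∈ C`, so `z, z1 ∉ base` are not in the balls and not last
vertices, and `B_THRU` applies. Then `B_LAB` gives `O_i z c`, so `O z c`, and the label. -/
def B_STRUCT : Prop :=
  ∀ (H S L : Type) [Group H] [Fintype S] [Fintype L] (X : Sys H S L) (P : Par)
    (u : H × S → ℕ) (O Sb : Edges H S) (q : Cfg H S L) (Λ : Finset H) (l1 l2 : List (H × S))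
    (O1 O2 : Edges H S) (o : H) (U : Set H), TwoH X O Sb q Λ l1 l2 O1 O2 →
    U = UU X P u l1 O1 q ∪ UU X P u l2 O2 q → o ∈ U →
    ∃ C Sp : Finset H, (C : Set H) = Cmp X U o ∧
      CT X P O Sb q o C Sp (l2.toFinset.filter fun e => e.1 ∈ C).card

open Classical in
/-- PACKET ORDF (facts about the ordered lists). May assume `D_ORD` of
Pool/Agent/Helper79/OE/GoalsD.lean (uniqueness). Proof: (1) `ordL` is some list with `IsOrd`, so it
is `l` by uniqueness. (2) a sublist of a pairwise list is pairwise (`List.Pairwise.filter`), members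
clear. (3) `prio (rev e) = prio e` (`rev_rev`, `max_comm`), `<` is irreflexive; `Si` edges are closed
(`Op = ¬ Cl`); (4) symmetry: `rev_rev`, `and_comm`. -/
def B_ORDF : Prop :=
  ∀ (H S L : Type) [Group H] (X : Sys H S L) (ε ε' : ℝ) (η : Env H S) (Λ Λ' : Set H)
    (l : List (H × S)), X.IsOrd ε ε' η Λ' l → Λ ⊆ Λ' →
    X.ordL ε ε' η Λ' = l ∧
    X.IsOrd ε ε' η Λ (l.filter fun e => decide (e.1 ∈ Λ ∧ X.nb e.1 e.2 ∈ Λ)) ∧
    (l.Pairwise (fun e e' => e ≠ e' ∧ e' ≠ X.rev e) ∧
      ∀ e ∈ l, X.Si ε ε' η e.1 e.2 ∧ ¬ X.Op ε η e.1 e.2) ∧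
    X.Sym (X.Op ε η) ∧ X.Sym (X.Si ε ε' η) ∧ X.Sym (X.inside Λ (X.Op ε η))

/-- PACKET M72A. `B_M72a` is in CT.lean. May assume `B_STRUCT`, `B_COMPARE`, `B_NOCH`, `B_DICH`,
`B_ORDF`, `D_ORD`. Proof: let `Λ' = insert v Λ`, `l2 = ordL Λ'`, `l1` the edges of `l2` inside `Λ`
(`= ordL Λ`, `B_ORDF` twice), `O1 = inside Λ Op`, `O2 = inside Λ' Op`: this is `TwoH` in the volume
`Λ'`. `o ∈ U`: otherwise both histories do not change `o` (`B_NOCH`) and the values are equal.
`B_STRUCT` gives the compatible tree `C = Cmp U o`. Suppose `v ∉ C` and no neighbour of `v` is in `C`.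
`B_COMPARE` with `b e := e inside Λ`: for `z ∈ C` `z ≠ v`, `nb z r ≠ v` (otherwise `z = nb v (bar r)`
would be a neighbour of `v`), so `O1 z r ↔ O2 z r`; the dichotomy is `B_DICH`; an edge of `l2` not
inside `Λ` has the end `v ∉ C`. So the values at `o ∈ C` are equal, a contradiction. -/
def B_PM72a : Prop :=
  B_CVX → B_STRUCT → B_COMPARE → B_NOCH → B_DICH → B_ORDF → B_M72a

/-- PACKET M72B. `B_M72b` is in CT.lean. May assume `B_STRUCT`, `B_STATIC`, `B_NOCH`, `B_DICH`,
`B_ORDF`, `B_LOCU`, `B_RINV`. Proof: `l = ordL Λ`, `O1 = inside Λ Op`; `TwoH` with both histories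
equal to this one. `o ∈ U` by `B_NOCH`. `B_STRUCT` gives `C = Cmp U o`, and `k` is the number of
`e ∈ l` with `e.1 ∈ C`. Let `k = 1`, so there is exactly one such `e`, and let `C` and its neighbours
be in `Λ`. For a record at `e' ≠ e` (then `e'.1 ∉ C`) the explored set is not contained in `C`, so it is
disjoint from `C` (`B_DICH`). `B_STATIC` gives the record ` (e, O', f')` with `f' = q` on `C`,
`O' z r ↔ O1 z r` for `z ∈ C`, which is `Op ε η z r` (both ends are in `Λ`), and
`Upd P O' e.1 e.2 (u e) f' o` is the final value, different from `q o`. The explored set of this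
record contains `e.1 ∈ C`, so it is contained in `C` (`B_DICH`). By `B_LOCU` (`K = Ex O' f' e ⊆ C`) the
static update `Upd P (Op ε η) e.1 e.2 (u e) q` has the same value at the vertices of `K`, and `o ∈ K`,
since otherwise `Upd P O' ... f' o = f' o = q o`. `e` is positive and in `Si` (`IsOrd`). -/
def B_PM72b : Prop :=
  B_CVX → B_STRUCT → B_STATIC → B_NOCH → B_DICH → B_ORDF → B_LOCU → B_RINV → B_M72b

/-! ## The weight of a compatible tree -/

open Classical in
/-- The weight of the vertex `z`. -/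
noncomputable def wz {H S L : Type} [Group H] [Fintype S] (X : Sys H S L) (t ζ κ : ℝ≥0∞)
    (Sb : Edges H S) (o : H) (C Sp : Finset H) (z : H) : ℝ≥0∞ :=
  t * (if z ∈ Sp then ζ * ∏ c : S,
    (if X.nb z c ∈ C ∧ X.dist o (X.nb z c) = X.dist o z + 1 ∧ Sb z c then κ else 1) else 1)

/-- PACKET WLOW. Proof: the product of the factors `t` is `t ^ C.card`; the product of the factors
`ζ` is `ζ ^ Sp.card ≥ ζ ^ (CR X P * k)` as `ζ ≤ 1`; the product of the factors `κ ≥ 1` over all pairs
` (z,c)`, `z ∈ Sp`, which satisfy the three conditions is at least `κ ^ k`, since the `k` elements of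
`E` (`CT.edges`) are such pairs (`Finset.prod_product'`, `Finset.prod_le_prod_of_subset'` or
counting). -/
def B_WLOW : Prop :=
  ∀ (H S L : Type) [Group H] [Fintype S] (X : Sys H S L) (P : Par) (t ζ κ : ℝ≥0∞)
    (O Sb : Edges H S) (q : Cfg H S L) (o : H) (C Sp : Finset H) (k : ℕ),
    ζ ≤ 1 → 1 ≤ κ → CT X P O Sb q o C Sp k →
    t ^ C.card * (ζ ^ (CR X P) * κ) ^ k ≤ ∏ z ∈ C, wz X t ζ κ Sb o C Sp z

open Classical in
/-- PACKET WREC (the parent-closed set `C` decomposed at a vertex). `r` is the direction of the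
parent of `z`. Proof: `Sd z r` is the disjoint union of `{z}` and of the branches
`Sd (nb z c) (bar c)`, `c ≠ r` (`exists_branch`, `branch_unique`, `branch_subset`, `notMem_Sd`); if
`nb z c ∉ C` then no vertex `x` of `C` is in this branch: otherwise going from `x` to `o` by parents
(`PC`) one meets `nb z c` (strong induction on `dist o x`: the parent of `x` is again in the branch
unless `x = nb z c`, by `Sd_edge`; here `c` is not the direction of the parent of `z`, so
`o` is not in the branch: `dist o (nb z c) = dist o z + 1`, `mem_Sd_bar`). The same at the root with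
all directions. -/
def B_WREC : Prop :=
  ∀ (H S L : Type) [Group H] [Fintype S] (X : Sys H S L) (o : H) (C : Finset H)
    (w : H → ℝ≥0∞), X.PC o (C : Set H) →
    (∀ z r, z ∈ C → X.dist o z = X.dist o (X.nb z r) + 1 →
      ∏ x ∈ C.filter (fun x => x ∈ X.Sd z r), w x =
        w z * ∏ c ∈ univ.erase r, (if X.nb z c ∈ C then
          ∏ x ∈ C.filter (fun x => x ∈ X.Sd (X.nb z c) (X.bar c)), w x else 1)) ∧
    ∏ x ∈ C, w x = w o * ∏ c : S, (if X.nb o c ∈ C then
      ∏ x ∈ C.filter (fun x => x ∈ X.Sd (X.nb o c) (X.bar c)), w x else 1)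

open Classical in
/-- PACKET WIND. May assume `B_WREC`. Proof: induction on `h`. `h = 0`: `x = z` contradicts
`dist z z < 0`. Step: for `c ≠ r` `nb z c` is a child, its parent has the direction `bar c`
(`nb_bar`) and is `z ≠ o`, whose parent has the direction `r`; the vertices `x` of the branch
`Sd (nb z c) (bar c)` have `dist z x = dist (nb z c) x + 1` and are in `Sd z r` (`branch_subset`); so by
induction the product `W c` over this branch is at most
`Yc := YY h (nb z c) (bar c) (tau (q z r))`. If `z ∈ Sp`: by `B_WREC` the product is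
`t * ζ * ∏ c ≠ r, (κ-factor) * (if nb z c ∈ C then W c else 1)` (for `c = r` the `κ`-factor is `1`),
and every factor is at most `1 + (if Sb z c then κ else 1) * Yc`. If `z ∉ Sp`: take `r, c0, r'` from
`CT.run` (`r` is the same, `parent_unique`): `nb z c ∈ C` for `c ≠ r` only if `c = c0`, so the product is
`t * W c0 ≤ t * Yc0`, and `q z c0 = tau (q (nb z r) r') = l` (the hypothesis on `l`;
`nb z r ≠ o` because it has a parent), `O z c0`: this is one term of the sum in `YY (h+1) z r l`. -/
def B_WIND : Prop :=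
  ∀ (H S L : Type) [Group H] [Fintype S] (X : Sys H S L) (P : Par) (t ζ κ : ℝ≥0∞)
    (O Sb : Edges H S) (q : Cfg H S L) (o : H) (C Sp : Finset H) (k : ℕ),
    CT X P O Sb q o C Sp k → ∀ h z r, z ∈ C → X.dist o z = X.dist o (X.nb z r) + 1 →
      (∀ x ∈ C, x ∈ X.Sd z r → X.dist z x < h) →
      ∀ l : L, (∀ r', X.dist o (X.nb z r) = X.dist o (X.nb (X.nb z r) r') + 1 →
        l = X.tau (q (X.nb z r) r')) →
      ∏ x ∈ C.filter (fun x => x ∈ X.Sd z r), wz X t ζ κ Sb o C Sp x ≤ X.YY O Sb q t ζ κ h z r l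

/-- PACKET L74. `B_L74` is in CT.lean. May assume `B_WLOW`, `B_WREC`, `B_WIND`. Proof: `B_WLOW`; then
`B_WREC` at the root: `w o = t * (ζ * ∏ c, κ-factor)` as `o ∈ Sp`, and for `nb o c ∈ C` the product
over the branch is at most `YY h (nb o c) (bar c) (e0 c)` with `h` larger than all `dist o x`,
`x ∈ C` (`B_WIND`; its condition on `l` is void: the parent `o` of `nb o c` has no parent,
`dist o o = 0`); so the whole is at most the term with this `h` of the supremum `YR`. -/
def B_PL74 : Prop := B_WLOW → B_WREC → B_WIND → B_L74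

/-- PACKET WIT. `Wit_stmt` is in Pool/Agent/Helper79/OE/IfaceD.lean. Proof: the constant is
`CR X ⟨J, M, 0⟩` (`rad` does not depend on `cap`). The list exists by `D_ORD` (`Dist`). `m = C.card`.
In a compatible tree `C` `dist o z < C.card` for `z ∈ C` (`C` contains a vertex of each distance
`≤ dist o z`, following the parents, so at least `dist o z + 1` vertices). So `v ∈ C` or `nb v s ∈ C`
give `dist o v ≤ C.card` (`dist_le_nb`), and if `ball o m ⊆ Λ` then `C` and its neighbours are in
`Λ`. The inequality is `B_L74`. -/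
def B_WIT : Prop :=
  Pool.Agent.Helper79.OE.D_ORD → B_L74 → B_M72a → B_M72b → Wit_stmt

end Pool.Agent.Helper75.OE
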